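import Pool.Agent.H94.DG.M01
import Pool.Agent.H94.DG.M20
import Pool.Agent.H94.DG.M21

/-!
# Project DG, B5: divisibility of the Chow form

Let `p ∈ Gam N ℂ`, `c = p 1`, `dot p w = 0`. Write `N (·; c) = ∏ t_s` (`split`, `mem_Gam_iff`: `p` is one of the `t_s`).

(1) Let `v₀ ∈ ℂ^(n+2)` with `dot p v₀ = 0`, `a (v₀) ≠ 0` (`a = N.coeff κ`), and `dot (t_s) v₀ ≠ 0` for all `t_s ≠ p`. Claim:
`φ (v₀, w) = 0`. Choose an ultrafilter `U ≤ 𝓝 v₀` containing `{v | Δ (v) ≠ 0}` (dense, `dense_ne_zero`). For `v` with `Δ (v) ≠ 0`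
enumerate the roots `u 0 (v), …, u (κ - 1) (v)` of `N (v; ·)` (`card_roots`) and the points `t i (v) = tpt N v (u i (v))`. Near `v₀` they
are bounded: `‖a (v)‖ ∏ max 1 ‖u i‖ ≤ C` (`mahler_le`, `bound_above`), `‖a (v)‖ ≥ c > 0`, `size_abs`. So `t i (v) → t i*` along
`U` (ultrafilter on a compact set). `t i*` lies in `Gam N ℂ`: `t i* 0 = 1`; if `dot (t i*) x = 0` then the vectors
`x - dot (t i (v)) x • e₀` are killed by `t i (v)` and converge to `x`, and `val N` is continuous. `dot (t i*) v₀ = 0`. By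
`val_eq_prod`, `N (v; c) = a (v) ∏ (c - u i (v))`, in the limit `0 = N (v₀; c) = a (v₀) ∏ (c - t i* 1)`, so some `t i* 1 = c`; then
`t i*` is one of the `t_s` and kills `v₀`, so `t i* = p`. In the limit `chow_prod` gives
`φ (v₀, w) = a (v₀) ∏ dot (t i*) w = 0`.

(2) The polynomial `a * ∏_{t_s ≠ p} t_s` is not divisible by the linear form `p`: `(- c, 1, 0, …)` is killed by `p`, `a` is `1` there
(by `val N (x e₀ + y e₁) u = (x + y u) ^ κ`), and `t_s ≠ p`. So `φ (·, w)` vanishes on a dense subset of the hyperplane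
`p = 0`, hence on the hyperplane, so the linear form `p` divides it (`p 0 = 1`: substitute
`v 0 = - ∑_{a ≥ 1} p a v a`).
-/

open MvPolynomial

noncomputable section

namespace Pool.Agent.H5.DG

variable {n κ : ℕ} {N : Polynomial (PV n)} {φ : PVW n}

private theorem cont_aeval {m : Type} [Fintype m] (F : MvPolynomial m ℂ) :
    Continuous fun v : m → ℂ => (MvPolynomial.aeval v F : ℂ) := by
  have h : (fun v : m → ℂ => (MvPolynomial.aeval v F : ℂ)) = fun v => MvPolynomial.eval v F := by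
    funext v
    rw [← MvPolynomial.coe_aeval_eq_eval]
    rfl
  rw [h]
  exact MvPolynomial.continuous_eval F

private theorem cont_val (hN : IsPreNorm κ N) :
    Continuous fun q : (Fin (n + 2) → ℂ) × ℂ => val N q.1 q.2 := by
  have h : (fun q : (Fin (n + 2) → ℂ) × ℂ => val N q.1 q.2) = fun q =>
      ∑ i ∈ Finset.range (κ + 1), (MvPolynomial.aeval q.1 (N.coeff i) : ℂ) * q.2 ^ i := by
    funext q
    exact val_eq_sum (natDegree_le hN) q.1 q.2
  rw [h]
  refine continuous_finsetSum _ fun i _ => ?_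
  exact ((cont_aeval _).comp continuous_fst).mul (continuous_snd.pow i)

private theorem cont_dot :
    Continuous fun q : (Fin (n + 2) → ℂ) × (Fin (n + 2) → ℂ) => dot q.1 q.2 := by
  unfold dot
  fun_prop

private theorem enum_aux {M : Type} [CommMonoid M] (s : Finset ℂ) (e : s ≃ Fin κ) (f : ℂ → M) :
    ∏ x ∈ s, f x = ∏ i, f (e.symm i : ℂ) := by
  rw [← Finset.prod_coe_sort s f]
  exact Fintype.prod_equiv e _ _ fun x => by rw [Equiv.symm_apply_apply]

private theorem enum_roots (hκ : 1 ≤ κ) (hN : IsPreNorm κ N) (v : Fin (n + 2) → ℂ)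
    (hΔ : MvPolynomial.aeval v (Del κ N) ≠ 0) :
    ∃ u : Fin κ → ℂ, (∀ i, val N v (u i) = 0) ∧
      (∀ f : ℂ → ℂ, ∏ x ∈ rts N v, f x = ∏ i, f (u i)) ∧
      ∀ f : ℂ → ℝ, ∏ x ∈ rts N v, f x = ∏ i, f (u i) := by
  have e := (rts N v).equivFinOfCardEq (card_roots hκ hN v hΔ)
  refine ⟨fun i => (e.symm i : ℂ), ?_, enum_aux _ e, enum_aux _ e⟩
  intro i
  exact (mem_roots_iff hN v hΔ _).mp (e.symm i).2

private theorem prod_max_le (hκ : 1 ≤ κ) (hN : IsPreNorm κ N) {C : ℝ}
    (hC : ∀ (v : Fin (n + 2) → ℂ) (b : ℕ), ‖MvPolynomial.eval v (N.coeff b)‖ ≤ C * ‖v‖ ^ κ)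
    (v : Fin (n + 2) → ℂ) (hΔ : MvPolynomial.aeval v (Del κ N) ≠ 0) :
    ‖MvPolynomial.aeval v (N.coeff κ)‖ * ∏ u ∈ rts N v, max 1 ‖u‖ ≤
      (κ + 1) * (C * ‖v‖ ^ κ) := by
  classical
  obtain ⟨h1, h2⟩ := atV_natDegree hN v (coeff_ne_zero v hΔ)
  have h3 := mahler_le (f := atV N v) h1 (H := C * ‖v‖ ^ κ) (by
    intro b
    rw [atV, Polynomial.coeff_map]
    have h4 := hC v b
    rw [← MvPolynomial.coe_aeval_eq_eval] at h4
    exact h4)
  rw [h2] at h3
  have h5 : (∏ u ∈ rts N v, max 1 ‖u‖) = ((atV N v).roots.map fun u => max 1 ‖u‖).prod := by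
    rw [Finset.prod, rts, Multiset.toFinset_val,
      Multiset.dedup_eq_self.mpr (roots_nodup hκ hN v hΔ)]
  rw [h5]
  exact h3

private theorem vanish (hκ : 1 ≤ κ) (hN : IsPreNorm κ N) (hΔ : Del κ N ≠ 0)
    (hφ : MvPolynomial.rename Sum.inl (N.coeff κ) * resW κ N =
      φ * MvPolynomial.rename Sum.inl (res0 κ N)) (p : Fin (n + 2) → ℂ)
    (w : Fin (n + 2) → ℂ) (hw : dot p w = 0) {t : Fin κ → Fin (n + 2) → ℂ}
    (ht1 : ∀ s, t s 0 = 1 ∧ t s 1 = p 1)
    (ht : ∀ w : Fin (n + 2) → ℂ, val N w (p 1) = ∏ s, dot (t s) w) (hpt : ∃ s, p = t s)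
    (v₀ : Fin (n + 2) → ℂ) (h1 : dot p v₀ = 0) (h2 : MvPolynomial.aeval v₀ (N.coeff κ) ≠ 0)
    (h3 : ∀ s, t s ≠ p → dot (t s) v₀ ≠ 0) : evVW φ v₀ w = 0 := by
  have hdense := dense_ne_zero (Del κ N) hΔ
  obtain ⟨U, hU1, hU2⟩ := mem_closure_iff_ultrafilter.mp (hdense v₀)
  have hU1' : ∀ᶠ v in (U : Filter (Fin (n + 2) → ℂ)), MvPolynomial.aeval v (Del κ N) ≠ 0 := by
    filter_upwards [hU1] with v hv
    rw [← MvPolynomial.coe_aeval_eq_eval] at hv
    exact hv
  -- the roots
  have hch : ∀ v : Fin (n + 2) → ℂ, ∃ u : Fin κ → ℂ, MvPolynomial.aeval v (Del κ N) ≠ 0 →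
      (∀ i, val N v (u i) = 0) ∧
      (∀ f : ℂ → ℂ, ∏ x ∈ rts N v, f x = ∏ i, f (u i)) ∧
      ∀ f : ℂ → ℝ, ∏ x ∈ rts N v, f x = ∏ i, f (u i) := by
    intro v
    by_cases hv : MvPolynomial.aeval v (Del κ N) = (0 : ℂ)
    · exact ⟨fun _ => 0, fun h => absurd hv h⟩
    · obtain ⟨u, hu⟩ := enum_roots hκ hN v hv
      exact ⟨u, fun _ => hu⟩
  choose r hr using hch
  obtain ⟨T, hT⟩ : ∃ T : (Fin (n + 2) → ℂ) → Fin κ → Fin (n + 2) → ℂ,
    T = fun v i => tpt N v (r v i) := ⟨_, rfl⟩
  have hTv : ∀ v i, T v i = tpt N v (r v i) := fun v i => by rw [hT]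
  -- bounds
  obtain ⟨C, hC1, hC⟩ := size_abs hκ hN
  obtain ⟨C₂, hC₂0, hC₂⟩ := bound_above hN
  have hid : Filter.Tendsto (fun v : Fin (n + 2) → ℂ => v) (U : Filter (Fin (n + 2) → ℂ))
    (nhds v₀) := hU2
  have ha : Filter.Tendsto (fun v : Fin (n + 2) → ℂ => (MvPolynomial.aeval v (N.coeff κ) : ℂ))
      (U : Filter (Fin (n + 2) → ℂ)) (nhds (MvPolynomial.aeval v₀ (N.coeff κ))) :=
    ((cont_aeval (N.coeff κ)).tendsto v₀).comp hid
  have hapos : 0 < ‖(MvPolynomial.aeval v₀ (N.coeff κ) : ℂ)‖ := norm_pos_iff.mpr h2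
  have ha2 : ∀ᶠ v in (U : Filter (Fin (n + 2) → ℂ)),
      ‖(MvPolynomial.aeval v₀ (N.coeff κ) : ℂ)‖ / 2 <
        ‖(MvPolynomial.aeval v (N.coeff κ) : ℂ)‖ :=
    (ha.norm).eventually (lt_mem_nhds (by linarith))
  have hv2 : ∀ᶠ v in (U : Filter (Fin (n + 2) → ℂ)), ‖v‖ < ‖v₀‖ + 1 :=
    (hid.norm).eventually (gt_mem_nhds (by linarith))
  obtain ⟨M, hM⟩ : ∃ M : ℝ, M = (κ + 1) * (C₂ * (‖v₀‖ + 1) ^ κ) /
    (‖(MvPolynomial.aeval v₀ (N.coeff κ) : ℂ)‖ / 2) := ⟨_, rfl⟩
  have hbd : ∀ᶠ v in (U : Filter (Fin (n + 2) → ℂ)), ‖T v‖ ≤ C * M := by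
    filter_upwards [hU1', ha2, hv2] with v g1 g2 g3
    obtain ⟨k1, k2, k3⟩ := hr v g1
    have h5 := prod_max_le hκ hN hC₂ v g1
    rw [k3] at h5
    have h6 : ∏ i, max 1 ‖r v i‖ ≤ M := by
      rw [hM, le_div_iff₀ (by positivity)]
      have hge : 0 ≤ ∏ i, max 1 ‖r v i‖ :=
        Finset.prod_nonneg fun i _ => le_trans zero_le_one (le_max_left _ _)
      calc (∏ i, max 1 ‖r v i‖) * (‖(MvPolynomial.aeval v₀ (N.coeff κ) : ℂ)‖ / 2)
          ≤ (∏ i, max 1 ‖r v i‖) * ‖(MvPolynomial.aeval v (N.coeff κ) : ℂ)‖ :=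
            mul_le_mul_of_nonneg_left g2.le hge
        _ = ‖(MvPolynomial.aeval v (N.coeff κ) : ℂ)‖ * ∏ i, max 1 ‖r v i‖ := mul_comm _ _
        _ ≤ (κ + 1) * (C₂ * ‖v‖ ^ κ) := h5
        _ ≤ (κ + 1) * (C₂ * (‖v₀‖ + 1) ^ κ) := by gcongr
    have hMi : ∀ i, max 1 ‖r v i‖ ≤ M := by
      intro i
      refine le_trans ?_ h6
      rw [← Finset.mul_prod_erase Finset.univ _ (Finset.mem_univ i)]
      refine le_mul_of_one_le_right (le_trans zero_le_one (le_max_left _ _)) ?_
      refine le_trans (le_of_eq (Finset.prod_const_one (s := Finset.univ.erase i)).symm) ?_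
      exact Finset.prod_le_prod (fun j _ => zero_le_one) fun j _ => le_max_left _ _
    have hCM : 0 ≤ C * M := by
      have : 0 ≤ M := by rw [hM]; positivity
      positivity
    rw [pi_norm_le_iff_of_nonneg hCM]
    intro i
    obtain ⟨g4, g5, g6, -, -, -⟩ := tpt_facts hκ hN v g1 (k1 i)
    rw [hTv]
    refine (hC _ g4).trans ?_
    rw [g6]
    exact mul_le_mul_of_nonneg_left (hMi i) (by linarith)
  -- the limit
  obtain ⟨T', -, hT'⟩ := (isCompact_closedBall (0 : Fin κ → Fin (n + 2) → ℂ)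
    (C * M)).ultrafilter_le_nhds (U.map T) (by
      rw [Filter.le_principal_iff]
      change ∀ᶠ v in (U : Filter (Fin (n + 2) → ℂ)), T v ∈ Metric.closedBall 0 (C * M)
      filter_upwards [hbd] with v hv
      rwa [mem_closedBall_zero_iff])
  have hTlim : Filter.Tendsto T (U : Filter (Fin (n + 2) → ℂ)) (nhds T') := hT'
  have hTi : ∀ i, Filter.Tendsto (fun v => T v i) (U : Filter (Fin (n + 2) → ℂ))
      (nhds (T' i)) := fun i => (tendsto_pi_nhds.mp hTlim) i
  have hTia : ∀ i a, Filter.Tendsto (fun v => T v i a) (U : Filter (Fin (n + 2) → ℂ))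
      (nhds (T' i a)) := fun i a => (tendsto_pi_nhds.mp (hTi i)) a
  have hdotlim : ∀ i (x : Fin (n + 2) → ℂ), Filter.Tendsto (fun v => dot (T v i) x)
      (U : Filter (Fin (n + 2) → ℂ)) (nhds (dot (T' i) x)) := by
    intro i x
    exact (cont_dot.tendsto (T' i, x)).comp ((hTi i).prodMk_nhds tendsto_const_nhds)
  have hT0 : ∀ i, T' i 0 = 1 := by
    intro i
    refine tendsto_nhds_unique (hTia i 0) ?_
    refine tendsto_const_nhds.congr' ?_
    filter_upwards [hU1'] with v g1
    obtain ⟨k1, k2, k3⟩ := hr v g1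
    rw [hTv, (tpt_facts hκ hN v g1 (k1 i)).2.1]
  have hTG : ∀ i, T' i ∈ Gam N ℂ := by
    intro i
    refine ⟨hT0 i, ?_⟩
    intro x hx
    have hlim1 : Filter.Tendsto
        (fun v => ((fun a => x a - if a = 0 then dot (T v i) x else 0 : Fin (n + 2) → ℂ),
          T v i 1)) (U : Filter (Fin (n + 2) → ℂ)) (nhds (x, T' i 1)) := by
      refine Filter.Tendsto.prodMk_nhds ?_ (hTia i 1)
      refine tendsto_pi_nhds.mpr ?_
      intro a
      by_cases ha0 : a = 0
      · simp only [ha0, if_true]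
        have h7 := (hdotlim i x).const_sub (x 0)
        rw [hx, sub_zero] at h7
        exact h7
      · simp only [ha0, if_false, sub_zero]
        exact tendsto_const_nhds
    have hlim2 := ((cont_val hN).tendsto (x, T' i 1)).comp hlim1
    refine tendsto_nhds_unique hlim2 ?_
    refine tendsto_const_nhds.congr' ?_
    filter_upwards [hU1'] with v g1
    obtain ⟨k1, k2, k3⟩ := hr v g1
    obtain ⟨g4, g5, g6, -, -, -⟩ := tpt_facts hκ hN v g1 (k1 i)
    rw [← hTv] at g4 g5
    symm
    refine g4.2 _ ?_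
    have h8 : dot (T v i) (fun a => x a - if a = 0 then dot (T v i) x else 0) =
        dot (T v i) x - T v i 0 * dot (T v i) x := by
      conv_lhs => rw [dot]
      simp only [mul_sub, Finset.sum_sub_distrib]
      congr 1
      rw [Finset.sum_eq_single 0]
      · rw [if_pos rfl]
      · intro b _ hb
        rw [if_neg hb, mul_zero]
      · intro h
        exact absurd (Finset.mem_univ _) h
    rw [h8, g5, one_mul, sub_self]
  have hTk : ∀ i, dot (T' i) v₀ = 0 := by
    intro i
    have hlim := (cont_dot.tendsto (T' i, v₀)).comp ((hTi i).prodMk_nhds hid)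
    refine tendsto_nhds_unique hlim ?_
    refine tendsto_const_nhds.congr' ?_
    filter_upwards [hU1'] with v g1
    obtain ⟨k1, k2, k3⟩ := hr v g1
    symm
    rw [Function.comp_apply, hTv]
    exact (tpt_facts hκ hN v g1 (k1 i)).2.2.2.1
  -- one of the limits is `p`
  have hprod : val N v₀ (p 1) =
      MvPolynomial.aeval v₀ (N.coeff κ) * ∏ i, (p 1 - T' i 1) := by
    have hlimA := ((cont_val hN).tendsto (v₀, p 1)).comp
      (hid.prodMk_nhds (tendsto_const_nhds (x := p 1)))
    have hlimB : Filter.Tendsto (fun v : Fin (n + 2) → ℂ =>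
        (MvPolynomial.aeval v (N.coeff κ) : ℂ) * ∏ i, (p 1 - T v i 1))
        (U : Filter (Fin (n + 2) → ℂ))
        (nhds (MvPolynomial.aeval v₀ (N.coeff κ) * ∏ i, (p 1 - T' i 1))) :=
      ha.mul (tendsto_finsetProd _ fun i _ => (hTia i 1).const_sub (p 1))
    refine tendsto_nhds_unique (hlimA.congr' ?_) hlimB
    filter_upwards [hU1'] with v g1
    obtain ⟨k1, k2, k3⟩ := hr v g1
    rw [Function.comp_apply]
    change val N v (p 1) = _
    rw [val_eq_prod hκ hN v g1, k2]
    congr 1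
    refine Finset.prod_congr rfl fun i _ => ?_
    rw [hTv, (tpt_facts hκ hN v g1 (k1 i)).2.2.1]
  obtain ⟨s₀, hs₀⟩ := hpt
  have hz : val N v₀ (p 1) = 0 := by
    rw [ht]
    refine Finset.prod_eq_zero (Finset.mem_univ s₀) ?_
    rw [← hs₀]
    exact h1
  rw [hz] at hprod
  rcases mul_eq_zero.mp hprod.symm with h9 | h9
  · exact absurd h9 h2
  rw [Finset.prod_eq_zero_iff] at h9
  obtain ⟨i, -, hi⟩ := h9
  have hi' : T' i 1 = p 1 := (sub_eq_zero.mp hi).symm
  obtain ⟨s, hs⟩ := (mem_Gam_iff ht1 ht (T' i) hi').mp (hTG i)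
  have hTp : T' i = p := by
    rw [hs]
    by_contra hne
    apply h3 s hne
    rw [← hs]
    exact hTk i
  -- the limit of the product formula
  have hlimC : Filter.Tendsto (fun v : Fin (n + 2) → ℂ => evVW φ v w)
      (U : Filter (Fin (n + 2) → ℂ)) (nhds (evVW φ v₀ w)) := by
    have hc : Continuous fun v : Fin (n + 2) → ℂ => evVW φ v w := by
      unfold evVW
      refine (cont_aeval φ).comp ?_
      refine continuous_pi ?_
      rintro (a | a)
      · exact continuous_apply a
      · exact continuous_const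
    exact (hc.tendsto v₀).comp hid
  have hlimD : Filter.Tendsto (fun v : Fin (n + 2) → ℂ =>
      (MvPolynomial.aeval v (N.coeff κ) : ℂ) * ∏ i, dot (T v i) w)
      (U : Filter (Fin (n + 2) → ℂ))
      (nhds (MvPolynomial.aeval v₀ (N.coeff κ) * ∏ i, dot (T' i) w)) :=
    ha.mul (tendsto_finsetProd _ fun i _ => hdotlim i w)
  have hfin : evVW φ v₀ w = MvPolynomial.aeval v₀ (N.coeff κ) * ∏ i, dot (T' i) w := by
    refine tendsto_nhds_unique (hlimC.congr' ?_) hlimD
    filter_upwards [hU1'] with v g1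
    obtain ⟨k1, k2, k3⟩ := hr v g1
    rw [chow_prod hκ hN hφ v w g1, k2]
    congr 1
    refine Finset.prod_congr rfl fun i _ => ?_
    rw [hTv]
  rw [hfin]
  rw [Finset.prod_eq_zero (Finset.mem_univ i) (by rw [hTp, hw]), mul_zero]

private theorem lead_one (hN : IsPreNorm κ N) (c : ℂ) :
    MvPolynomial.aeval (fun a : Fin (n + 2) => if a = 0 then -c else if a = 1 then 1 else 0)
      (N.coeff κ) = (1 : ℂ) := by
  obtain ⟨v, hv⟩ : ∃ v : Fin (n + 2) → ℂ,
    v = fun a => if a = 0 then -c else if a = 1 then 1 else 0 := ⟨_, rfl⟩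
  rw [← hv]
  have hatV : atV N v = (Polynomial.X - Polynomial.C c) ^ κ := by
    refine Polynomial.funext ?_
    intro u
    obtain ⟨t, ht1, ht⟩ := hN.split ℂ u
    have h1 : (atV N v).eval u = val N v u := rfl
    rw [h1, ht]
    have h2 : ∀ s, dot (t s) v = u - c := by
      intro s
      rw [dot, Fin.sum_univ_succ, Fin.sum_univ_succ, Finset.sum_eq_zero]
      · have e1 : (Fin.succ 0 : Fin (n + 2)) = 1 := rfl
        rw [e1, (ht1 s).1, (ht1 s).2, hv]
        have e2 : (1 : Fin (n + 2)) ≠ 0 := by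
          intro h
          have := congrArg Fin.val h
          simp at this
        simp only [if_true, e2, if_false]
        ring
      · intro i _
        rw [hv]
        have e3 : i.succ.succ ≠ (0 : Fin (n + 2)) := Fin.succ_ne_zero _
        have e4 : i.succ.succ ≠ (1 : Fin (n + 2)) := by
          intro h
          have := congrArg Fin.val h
          simp at this
        simp only [e3, e4, if_false, mul_zero]
    simp only [h2, Finset.prod_const, Finset.card_univ, Fintype.card_fin, Polynomial.eval_pow,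
      Polynomial.eval_sub, Polynomial.eval_X, Polynomial.eval_C]
  have h3 : (atV N v).coeff κ = MvPolynomial.aeval v (N.coeff κ) := by
    rw [atV, Polynomial.coeff_map]
    rfl
  rw [← h3, hatV]
  have h4 : ((Polynomial.X - Polynomial.C c) ^ κ).Monic := (Polynomial.monic_X_sub_C c).pow κ
  have h5 : ((Polynomial.X - Polynomial.C c) ^ κ).natDegree = κ := by
    rw [Polynomial.natDegree_pow, Polynomial.natDegree_X_sub_C, mul_one]
  have h6 := h4.coeff_natDegree
  rw [h5] at h6
  exact h6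

/-- Restriction to the hyperplane. -/
private def proj (p : Fin (n + 2) → ℂ) : PV n →ₐ[ℂ] PV n :=
  MvPolynomial.aeval fun a => X a - if a = 0 then ∑ b, MvPolynomial.C (p b) * X b else 0

private theorem proj_congr (p : Fin (n + 2) → ℂ) (F : PV n) :
    (∑ b, MvPolynomial.C (p b) * X b) ∣ F - proj p F := by
  induction F using MvPolynomial.induction_on with
  | C a =>
    have h1 : proj p (MvPolynomial.C a) = MvPolynomial.C a := by
      rw [proj, MvPolynomial.aeval_C]
      rfl
    rw [h1, sub_self]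
    exact dvd_zero _
  | add F G hF hG =>
    rw [map_add]
    have : F + G - (proj p F + proj p G) = (F - proj p F) + (G - proj p G) := by ring
    rw [this]
    exact dvd_add hF hG
  | mul_X F a hF =>
    rw [map_mul]
    have : F * X a - proj p F * proj p (X a) =
        (F - proj p F) * X a + proj p F * (X a - proj p (X a)) := by ring
    rw [this]
    refine dvd_add (Dvd.dvd.mul_right hF _) (Dvd.dvd.mul_left ?_ _)
    rw [proj, MvPolynomial.aeval_X, sub_sub_cancel]
    split_ifs
    · exact dvd_refl _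
    · exact dvd_zero _

private theorem eval_proj (p v : Fin (n + 2) → ℂ) (F : PV n) :
    MvPolynomial.eval v (proj p F) =
      MvPolynomial.aeval (fun a => v a - if a = 0 then dot p v else 0) F := by
  have h1 : ∀ G : PV n, MvPolynomial.eval v G = MvPolynomial.aeval v G := by
    intro G
    rw [← MvPolynomial.coe_aeval_eq_eval]
    rfl
  rw [h1, proj, ← AlgHom.comp_apply, MvPolynomial.comp_aeval]
  congr 2
  funext a
  rw [map_sub, MvPolynomial.aeval_X]
  congr 1
  split_ifs
  · rw [map_sum, dot]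
    refine Finset.sum_congr rfl fun b _ => ?_
    rw [map_mul, MvPolynomial.aeval_C, MvPolynomial.aeval_X]
    rfl
  · rw [map_zero]

theorem chow_dvd (hκ : 1 ≤ κ) (hN : IsPreNorm κ N) (hΔ : Del κ N ≠ 0)
    (hφ : MvPolynomial.rename Sum.inl (N.coeff κ) * resW κ N =
      φ * MvPolynomial.rename Sum.inl (res0 κ N)) (p : Fin (n + 2) → ℂ) (hp : p ∈ Gam N ℂ)
    (w : Fin (n + 2) → ℂ) (hw : dot p w = 0) :
    ∃ ψ : PV n, MvPolynomial.aeval (Sum.elim MvPolynomial.X fun a => MvPolynomial.C (w a)) φ =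
      (∑ a, MvPolynomial.C (p a) * MvPolynomial.X a) * ψ := by
  classical
  obtain ⟨t, ht1, ht⟩ := hN.split ℂ (p 1)
  have hpt := (mem_Gam_iff ht1 ht p rfl).mp hp
  have hp0 : p 0 = 1 := hp.1
  obtain ⟨F, hF⟩ : ∃ F : PV n,
    F = MvPolynomial.aeval (Sum.elim MvPolynomial.X fun a => MvPolynomial.C (w a)) φ := ⟨_, rfl⟩
  have hFe : ∀ v : Fin (n + 2) → ℂ, MvPolynomial.aeval v F = evVW φ v w := by
    intro v
    rw [hF, evVW, ← AlgHom.comp_apply, MvPolynomial.comp_aeval]
    congr 2
    funext i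
    rcases i with a | a
    · simp
    · simp
  obtain ⟨G, hG⟩ : ∃ G : PV n, G = N.coeff κ *
    ∏ s ∈ Finset.univ.filter (fun s => t s ≠ p), ∑ b, MvPolynomial.C (t s b) * X b := ⟨_, rfl⟩
  have hlin : ∀ (q v : Fin (n + 2) → ℂ),
      MvPolynomial.aeval v (∑ b, MvPolynomial.C (q b) * X b : PV n) = dot q v := by
    intro q v
    rw [map_sum, dot]
    refine Finset.sum_congr rfl fun b _ => ?_
    rw [map_mul, MvPolynomial.aeval_C, MvPolynomial.aeval_X]
    rfl
  have hker : ∀ v : Fin (n + 2) → ℂ, dot p (fun a => v a - if a = 0 then dot p v else 0) = 0 := by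
    intro v
    have h8 : dot p (fun a => v a - if a = 0 then dot p v else 0) =
        dot p v - p 0 * dot p v := by
      conv_lhs => rw [dot]
      simp only [mul_sub, Finset.sum_sub_distrib]
      congr 1
      rw [Finset.sum_eq_single 0]
      · rw [if_pos rfl]
      · intro b _ hb
        rw [if_neg hb, mul_zero]
      · intro h
        exact absurd (Finset.mem_univ _) h
    rw [h8, hp0, one_mul, sub_self]
  -- the product vanishes
  have hprod : proj p F * proj p G = 0 := by
    refine MvPolynomial.funext ?_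
    intro v
    rw [map_mul, map_zero, eval_proj, eval_proj]
    obtain ⟨v', hv'⟩ : ∃ v' : Fin (n + 2) → ℂ,
      v' = fun a => v a - if a = 0 then dot p v else 0 := ⟨_, rfl⟩
    rw [← hv']
    by_cases hGv : MvPolynomial.aeval v' G = (0 : ℂ)
    · rw [hGv, mul_zero]
    · rw [hG, map_mul, map_prod] at hGv
      have g1 : MvPolynomial.aeval v' (N.coeff κ) ≠ (0 : ℂ) := left_ne_zero_of_mul hGv
      have g2 := right_ne_zero_of_mul hGv
      rw [Finset.prod_ne_zero_iff] at g2
      have g3 : ∀ s, t s ≠ p → dot (t s) v' ≠ 0 := by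
        intro s hs
        have := g2 s (Finset.mem_filter.mpr ⟨Finset.mem_univ s, hs⟩)
        rw [hlin] at this
        exact this
      have g4 : dot p v' = 0 := by
        rw [hv']
        exact hker v
      rw [hFe, vanish hκ hN hΔ hφ p w hw ht1 ht hpt v' g4 g1 g3, zero_mul]
  have hGne : proj p G ≠ 0 := by
    rw [hG, map_mul, map_prod]
    refine mul_ne_zero ?_ (Finset.prod_ne_zero_iff.mpr ?_)
    · intro h
      have h1 := congrArg (fun Q => MvPolynomial.eval
        (fun a : Fin (n + 2) => if a = 0 then -(p 1) else if a = 1 then 1 else 0) Q) h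
      simp only [eval_proj, map_zero] at h1
      have e2 : (1 : Fin (n + 2)) ≠ 0 := by
        intro h
        have := congrArg Fin.val h
        simp at this
      have h2 : dot p (fun a : Fin (n + 2) => if a = 0 then -(p 1) else if a = 1 then 1 else 0) =
          0 := by
        rw [dot, Fin.sum_univ_succ, Fin.sum_univ_succ, Finset.sum_eq_zero]
        · have e1 : (Fin.succ 0 : Fin (n + 2)) = 1 := rfl
          rw [e1, hp0]
          simp only [if_true, e2, if_false]
          ring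
        · intro i _
          have e3 : i.succ.succ ≠ (0 : Fin (n + 2)) := Fin.succ_ne_zero _
          have e4 : i.succ.succ ≠ (1 : Fin (n + 2)) := by
            intro h
            have := congrArg Fin.val h
            simp at this
          simp only [e3, e4, if_false, mul_zero]
      rw [h2] at h1
      simp only [ite_self, sub_zero] at h1
      rw [lead_one hN (p 1)] at h1
      exact one_ne_zero h1
    · intro s hs
      have hsp : t s ≠ p := (Finset.mem_filter.mp hs).2
      intro h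
      apply hsp
      funext a
      by_cases ha : a = 0
      · rw [ha, (ht1 s).1, hp0]
      · have h1 := congrArg (fun Q => MvPolynomial.eval (Pi.single a 1 : Fin (n + 2) → ℂ) Q) h
        simp only [eval_proj, map_zero] at h1
        rw [hlin] at h1
        have h2 : dot p (Pi.single a 1) = p a := by
          rw [dot, Finset.sum_eq_single a]
          · rw [Pi.single_eq_same, mul_one]
          · intro b _ hb
            rw [Pi.single_eq_of_ne hb, mul_zero]
          · intro h
            exact absurd (Finset.mem_univ _) h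
        rw [h2] at h1
        have h3 : dot (t s) (fun b => (Pi.single a 1 : Fin (n + 2) → ℂ) b -
            if b = 0 then p a else 0) = t s a - t s 0 * p a := by
          conv_lhs => rw [dot]
          simp only [mul_sub, Finset.sum_sub_distrib]
          congr 1
          · rw [Finset.sum_eq_single a]
            · rw [Pi.single_eq_same, mul_one]
            · intro b _ hb
              rw [Pi.single_eq_of_ne hb, mul_zero]
            · intro h
              exact absurd (Finset.mem_univ _) h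
          · rw [Finset.sum_eq_single 0]
            · rw [if_pos rfl]
            · intro b _ hb
              rw [if_neg hb, mul_zero]
            · intro h
              exact absurd (Finset.mem_univ _) h
        rw [h3, (ht1 s).1, one_mul] at h1
        exact sub_eq_zero.mp h1
  have hPF : proj p F = 0 := by
    rcases mul_eq_zero.mp hprod with h | h
    · exact h
    · exact absurd h hGne
  have hd := proj_congr p F
  rw [hPF, sub_zero] at hd
  obtain ⟨ψ, hψ⟩ := hd
  refine ⟨ψ, ?_⟩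
  rw [← hF]
  exact hψ

end Pool.Agent.H5.DG
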