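import Pool.Agent.H94.DG.M20
import Pool.Agent.H94.DG.M21

/-!
# Project DG, C: the value of `Phi`

`toL_facts`: `toL_mem_Gam`, `tpt_facts` (`val N v (algebraMap ℂ L (τ 1)) = 0` since `dot (toL L τ) v = 0`; uniqueness of the
point over a root). So `τ ↦ algebraMap ℂ L (τ 1)` is injective on `T` with values in `rts N v`.
`phi_prod`: for `ε ∈ L`, `chow_prod` for `(v, w + ε e₀)` and `tpt N v u 0 = 1` give
`φ (v, w + ε e₀) = a (v) ∏_{u ∈ rts} (dot (tpt N v u) w + ε) = a (v) ε ^ T.card ∏_{u ∈ outs} (dot (tpt N v u) w + ε)`. Compare the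
coefficients of `ε ^ T.card` (`phi_expand`; two polynomials with the same values on the infinite field `L`).
-/

open MvPolynomial

noncomputable section

namespace Pool.Agent.H5.DG

variable {n κ : ℕ} {N : Polynomial (PV n)} {φ : PVW n} {L : Type} [Field L] [Algebra ℂ L]
  [IsAlgClosed L]

theorem toL_facts (hκ : 1 ≤ κ) (hN : IsPreNorm κ N) (v : Fin (n + 2) → L)
    (hΔ : MvPolynomial.aeval v (Del κ N) ≠ 0) {τ : Fin (n + 2) → ℂ} (hτ : τ ∈ Gam N ℂ)
    (h0 : dot (toL L τ) v = 0) :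
    algebraMap ℂ L (τ 1) ∈ rts N v ∧ tpt N v (algebraMap ℂ L (τ 1)) = toL L τ := by
  have hG : toL L τ ∈ Gam N L := toL_mem_Gam hN hτ
  have hv : val N v (algebraMap ℂ L (τ 1)) = 0 := hG.2 v h0
  refine ⟨(mem_roots_iff hN v hΔ _).mpr hv, ?_⟩
  exact ((tpt_facts hκ hN v hΔ hv).2.2.2.2.1 _ hG rfl h0).symm

private theorem PhiProd_val_eq {M : Type} [Field M] [Algebra ℂ M] (w : Fin (n + 2) → M) (c : ℂ) :
    val N w (algebraMap ℂ M c) = MvPolynomial.aeval w (Polynomial.eval (MvPolynomial.C c) N) := by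
  unfold val atV
  rw [Polynomial.eval_map]
  have h := Polynomial.eval₂_at_apply (p := N) (MvPolynomial.aeval w : PV n →ₐ[ℂ] M).toRingHom
    (MvPolynomial.C c)
  have h2 : (MvPolynomial.aeval w : PV n →ₐ[ℂ] M).toRingHom (MvPolynomial.C c) =
      algebraMap ℂ M c := by
    simp
  rw [h2] at h
  exact h

/-- A point of the curve over a complex root is a complex point. -/
theorem tpt_complex (hκ : 1 ≤ κ) (hN : IsPreNorm κ N) (v : Fin (n + 2) → L)
    (hΔ : MvPolynomial.aeval v (Del κ N) ≠ 0) {c : ℂ} (hc : algebraMap ℂ L c ∈ rts N v) :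
    ∃ τ ∈ Gam N ℂ, τ 1 = c ∧ tpt N v (algebraMap ℂ L c) = toL L τ ∧ dot (toL L τ) v = 0 := by
  obtain ⟨t, ht1, ht⟩ := hN.split ℂ c
  have hpoly : Polynomial.eval (MvPolynomial.C c) N =
      ∏ s, ∑ a, MvPolynomial.C (t s a) * MvPolynomial.X a := by
    refine MvPolynomial.funext fun w => ?_
    have h1 := ht w
    have h2 := PhiProd_val_eq (N := N) w c
    have h3 : val N w c = MvPolynomial.aeval w (Polynomial.eval (MvPolynomial.C c) N) := h2
    rw [h3] at h1
    rw [MvPolynomial.aeval_eq_eval] at h1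
    have h4 : MvPolynomial.eval w (Polynomial.eval (MvPolynomial.C c) N) = ∏ s, dot (t s) w := h1
    rw [h4, map_prod]
    refine Finset.prod_congr rfl fun s _ => ?_
    simp [dot]
  have hL : ∀ w : Fin (n + 2) → L, val N w (algebraMap ℂ L c) = ∏ s, dot (toL L (t s)) w := by
    intro w
    rw [PhiProd_val_eq, hpoly, map_prod]
    refine Finset.prod_congr rfl fun s _ => ?_
    simp [dot, toL]
  have hv : val N v (algebraMap ℂ L c) = 0 := (mem_roots_iff hN v hΔ _).mp hc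
  have hv2 := hv
  rw [hL v, Finset.prod_eq_zero_iff] at hv2
  obtain ⟨s, _, hs⟩ := hv2
  refine ⟨t s, ⟨(ht1 s).1, ?_⟩, (ht1 s).2, ?_, hs⟩
  · intro w hw
    rw [(ht1 s).2, ht w]
    exact Finset.prod_eq_zero (Finset.mem_univ s) hw
  · refine ((tpt_facts hκ hN v hΔ hv).2.2.2.2.1 _ ⟨?_, ?_⟩ ?_ hs).symm
    · simp [toL, (ht1 s).1]
    · intro w hw
      have : toL L (t s) 1 = algebraMap ℂ L c := by simp [toL, (ht1 s).2]
      rw [this, hL w]
      exact Finset.prod_eq_zero (Finset.mem_univ s) hw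
    · simp [toL, (ht1 s).2]

private theorem PhiProd_injOn (hκ : 1 ≤ κ) (hN : IsPreNorm κ N) (v : Fin (n + 2) → L)
    (hΔ : MvPolynomial.aeval v (Del κ N) ≠ 0) (T : Finset (Fin (n + 2) → ℂ))
    (hT : ∀ τ ∈ T, τ ∈ Gam N ℂ) (hTv : ∀ τ ∈ T, dot (toL L τ) v = 0) :
    Set.InjOn (fun τ : Fin (n + 2) → ℂ => algebraMap ℂ L (τ 1)) T := by
  intro τ hτ τ' hτ' h
  have h1 := (toL_facts hκ hN v hΔ (hT τ hτ) (hTv τ hτ)).2
  have h2 := (toL_facts hκ hN v hΔ (hT τ' hτ') (hTv τ' hτ')).2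
  simp only at h
  rw [h, h2] at h1
  funext a
  exact (algebraMap ℂ L).injective (congrFun h1 a).symm

open Classical in
private theorem PhiProd_compl (hκ : 1 ≤ κ) (hN : IsPreNorm κ N) (v : Fin (n + 2) → L)
    (hΔ : MvPolynomial.aeval v (Del κ N) ≠ 0) (T : Finset (Fin (n + 2) → ℂ))
    (hT : ∀ τ ∈ T, τ ∈ Gam N ℂ) (hTv : ∀ τ ∈ T, dot (toL L τ) v = 0) :
    rts N v \ outs N v T = T.image (fun τ : Fin (n + 2) → ℂ => algebraMap ℂ L (τ 1)) := by
  ext u
  rw [Finset.mem_sdiff, Finset.mem_image, outs, Finset.mem_filter]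
  constructor
  · rintro ⟨h1, h2⟩
    by_contra h3
    exact h2 ⟨h1, fun τ hτ h4 => h3 ⟨τ, hτ, h4⟩⟩
  · rintro ⟨τ, hτ, rfl⟩
    refine ⟨(toL_facts hκ hN v hΔ (hT τ hτ) (hTv τ hτ)).1, fun h => ?_⟩
    exact h.2 τ hτ rfl

private theorem PhiProd_outs_sub (v : Fin (n + 2) → L) (T : Finset (Fin (n + 2) → ℂ)) :
    outs N v T ⊆ rts N v := by
  classical
  unfold outs
  exact Finset.filter_subset _ _

theorem outs_card (hκ : 1 ≤ κ) (hN : IsPreNorm κ N) (v : Fin (n + 2) → L)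
    (hΔ : MvPolynomial.aeval v (Del κ N) ≠ 0) (T : Finset (Fin (n + 2) → ℂ))
    (hT : ∀ τ ∈ T, τ ∈ Gam N ℂ) (hTv : ∀ τ ∈ T, dot (toL L τ) v = 0) :
    T.card + (outs N v T).card = κ := by
  classical
  rw [← card_roots hκ hN v hΔ,
    ← Finset.card_image_of_injOn (PhiProd_injOn hκ hN v hΔ T hT hTv),
    ← PhiProd_compl hκ hN v hΔ T hT hTv]
  exact Finset.card_sdiff_add_card_eq_card (PhiProd_outs_sub v T)

theorem not_mem_outs (hκ : 1 ≤ κ) (hN : IsPreNorm κ N) (v : Fin (n + 2) → L)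
    (hΔ : MvPolynomial.aeval v (Del κ N) ≠ 0) (T : Finset (Fin (n + 2) → ℂ))
    (hT : ∀ τ ∈ T, τ ∈ Gam N ℂ) (hTv : ∀ τ ∈ T, dot (toL L τ) v = 0) {u : L} (hu : u ∈ rts N v)
    (hu' : u ∉ outs N v T) : ∃ τ ∈ T, tpt N v u = toL L τ := by
  classical
  have h : u ∈ rts N v \ outs N v T := Finset.mem_sdiff.mpr ⟨hu, hu'⟩
  rw [PhiProd_compl hκ hN v hΔ T hT hTv, Finset.mem_image] at h
  obtain ⟨τ, hτ, rfl⟩ := h
  exact ⟨τ, hτ, (toL_facts hκ hN v hΔ (hT τ hτ) (hTv τ hτ)).2⟩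

theorem phi_prod (hκ : 1 ≤ κ) (hN : IsPreNorm κ N)
    (hφ : MvPolynomial.rename Sum.inl (N.coeff κ) * resW κ N =
      φ * MvPolynomial.rename Sum.inl (res0 κ N)) (v w : Fin (n + 2) → L)
    (hΔ : MvPolynomial.aeval v (Del κ N) ≠ 0) (T : Finset (Fin (n + 2) → ℂ))
    (hT : ∀ τ ∈ T, τ ∈ Gam N ℂ) (hTv : ∀ τ ∈ T, dot (toL L τ) v = 0)
    (hTw : ∀ τ ∈ T, dot (toL L τ) w = 0) :
    evVW (Phi φ T.card) v w = MvPolynomial.aeval v (N.coeff κ) *
      ∏ u ∈ outs N v T, dot (tpt N v u) w := by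
  classical
  have : Infinite L := IsAlgClosed.instInfinite
  obtain ⟨d, hd, _⟩ := phi_expand φ v w (0 : L)
  set P : Polynomial L := ∑ e ∈ Finset.range (d + 1),
    Polynomial.C (evVW (Phi φ e) v w) * Polynomial.X ^ e with hP
  set Q : Polynomial L := Polynomial.C (MvPolynomial.aeval v (N.coeff κ)) *
    (Polynomial.X ^ T.card * ∏ u ∈ outs N v T,
      (Polynomial.C (dot (tpt N v u) w) + Polynomial.X)) with hQ
  have hPc : ∀ e, P.coeff e = evVW (Phi φ e) v w := by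
    intro e
    rw [hP, Polynomial.finsetSum_coeff]
    simp only [Polynomial.coeff_C_mul_X_pow]
    by_cases he : e ∈ Finset.range (d + 1)
    · rw [Finset.sum_ite_eq _ e]
      simp [he]
    · rw [Finset.sum_ite_eq _ e, if_neg he, hd e]
      simpa using he
  have hPe : ∀ ε : L, P.eval ε = evVW φ v (fun a => w a + if a = 0 then ε else 0) := by
    intro ε
    obtain ⟨d', hd', he⟩ := phi_expand φ v w ε
    have hlt : P.natDegree < max P.natDegree (max d d') + 1 := by omega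
    rw [he, Polynomial.eval_eq_sum_range' hlt]
    symm
    calc ∑ e ∈ Finset.range (d' + 1), evVW (Phi φ e) v w * ε ^ e
        = ∑ e ∈ Finset.range (d' + 1), P.coeff e * ε ^ e :=
          Finset.sum_congr rfl fun e _ => by rw [hPc]
      _ = _ := by
          refine Finset.sum_subset (Finset.range_subset_range.mpr (by omega)) ?_
          intro e _ he2
          rw [hPc, hd' e (by simpa using he2), zero_mul]
  have hPQ : P = Q := by
    refine Polynomial.funext fun ε => ?_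
    rw [hPe, chow_prod hκ hN hφ v _ hΔ, hQ, Polynomial.eval_mul, Polynomial.eval_C,
      Polynomial.eval_mul, Polynomial.eval_pow, Polynomial.eval_X, Polynomial.eval_prod]
    congr 1
    have hdot : ∀ u ∈ rts N v, dot (tpt N v u) (fun a => w a + if a = 0 then ε else 0) =
        dot (tpt N v u) w + ε := by
      intro u hu
      have h0 := (tpt_facts hκ hN v hΔ ((mem_roots_iff hN v hΔ _).mp hu)).2.1
      unfold dot
      simp only [mul_add, Finset.sum_add_distrib, mul_ite, mul_zero]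
      rw [Finset.sum_ite_eq' _ (0 : Fin (n + 2))]
      simp [h0]
    rw [Finset.prod_congr rfl hdot, ← Finset.prod_sdiff (PhiProd_outs_sub v T),
      PhiProd_compl hκ hN v hΔ T hT hTv,
      Finset.prod_image (PhiProd_injOn hκ hN v hΔ T hT hTv)]
    congr 1
    · rw [← Finset.prod_const]
      refine Finset.prod_congr rfl fun τ hτ => ?_
      rw [(toL_facts hκ hN v hΔ (hT τ hτ) (hTv τ hτ)).2, hTw τ hτ, zero_add]
    · refine Finset.prod_congr rfl fun u _ => ?_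
      simp
  rw [← hPc, hPQ, hQ, Polynomial.coeff_C_mul]
  congr 1
  rw [Polynomial.coeff_X_pow_mul', if_pos le_rfl, Nat.sub_self, Polynomial.coeff_zero_eq_eval_zero,
    Polynomial.eval_prod]
  simp

end Pool.Agent.H5.DG
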