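import Pool.Agent.H94.DG.H5.DG.Package
import Pool.Agent.H94.DG.M34

/-!
# Project DG, module D2Core: the analytic core in the original coordinates

`core_analytic`: `ι = {i // MeroPunct R₀ (lin (l i) g)}`, `lam i a = ∑ b, l i b * M b a`,
`g' a = ∑ b, M⁻¹ a b * g b`; `lin (lam i) g' = lin (l i) g`.  The number of `i` for which
`lin (l i) g = 0` identically is at most `n + 1` (`genPos_zero` at a point), so there are at least
`n + 2` others and they span (left inverse `b`).  The `j ∈ J` with `lin (l j) g = 0` identically: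
their points lie in the set `T` of `exists_constants`, so there are at most `κ` of them;
`(2 * n + 8) * κ - κ > 4 * κ`.  Apply `analytic_core`.

`exists_pkg`: `package n (2 * n + 8)`; the scaled points are distinct since the `l j` are pairwise not
proportional (`GenPos`, `n + 2 ≥ 2`) and `M` is invertible.
-/

open MvPolynomial Filter Topology
open Pool.Agent.H62.FC (MeroPunct PunctMero)
open Pool.Agent.H92.GGL (ordZ)

noncomputable section

namespace Pool.Agent.H5.DG

/-- The exceptional form in the original coordinates. -/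
def DelM {n : ℕ} (M : Matrix (Fin (n + 2)) (Fin (n + 2)) ℂ) (κ : ℕ) (N : Polynomial (PV n)) :
    PV n :=
  MvPolynomial.aeval (fun a => ∑ b, MvPolynomial.C (M⁻¹ a b) * MvPolynomial.X b) (Del κ N)

/-- The data given by `package`. -/
structure Pkg {n m : ℕ} (l : Fin m → Fin (n + 2) → ℂ) (M : Matrix (Fin (n + 2)) (Fin (n + 2)) ℂ)
    (κ : ℕ) (N : Polynomial (PV n)) (φ : PVW n) (J : Finset (Fin m)) (c : Fin m → ℂ) : Prop where
  gen : GenPos l
  le_m : 2 * n + 3 ≤ m
  det : IsUnit M.det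
  data : DGData κ N φ
  del : Del κ N ≠ 0
  hom : ∃ k, (Del κ N).IsHomogeneous k
  marked : Marked N (fun j a => ∑ b, l j b * M b a) c J
  card : (2 * n + 8) * κ < J.card

section

variable {n m κ : ℕ} {l : Fin m → Fin (n + 2) → ℂ} {M : Matrix (Fin (n + 2)) (Fin (n + 2)) ℂ}
  {N : Polynomial (PV n)} {φ : PVW n} {J : Finset (Fin m)} {c : Fin m → ℂ}

theorem eval_DelM (v : Fin (n + 2) → ℂ) :
    MvPolynomial.eval v (DelM M κ N) = MvPolynomial.eval (M⁻¹.mulVec v) (Del κ N) := by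
  have h : (MvPolynomial.eval v).comp (MvPolynomial.aeval (fun a : Fin (n + 2) =>
      ∑ b, MvPolynomial.C (M⁻¹ a b) * MvPolynomial.X b) : PV n →ₐ[ℂ] PV n).toRingHom =
      MvPolynomial.eval (M⁻¹.mulVec v) := by
    apply MvPolynomial.ringHom_ext
    · intro r
      simp
    · intro a
      simp [Matrix.mulVec, dotProduct]
  exact congrArg (fun f => f (Del κ N)) h

theorem DelM_isHomogeneous (h : Pkg l M κ N φ J c) : ∃ k, (DelM M κ N).IsHomogeneous k := by
  obtain ⟨k, hk⟩ := h.hom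
  refine ⟨1 * k, hk.aeval _ fun a => ?_⟩
  apply MvPolynomial.IsHomogeneous.sum
  intro b _
  have h1 := (MvPolynomial.isHomogeneous_C (Fin (n + 2)) (M⁻¹ a b)).mul
    (MvPolynomial.isHomogeneous_X ℂ b)
  simpa using h1

theorem DelM_ne_zero (h : Pkg l M κ N φ J c) : DelM M κ N ≠ 0 := by
  intro h0
  apply h.del
  apply MvPolynomial.funext
  intro v
  have h1 := eval_DelM (M := M) (κ := κ) (N := N) (M.mulVec v)
  rw [h0, map_zero, Matrix.mulVec_mulVec, Matrix.nonsing_inv_mul M h.det, Matrix.one_mulVec] at h1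
  rw [map_zero]
  exact h1.symm

/-- Independence. -/
theorem genPos_zero (hl : GenPos l) {v : Fin (n + 2) → ℂ} {S : Finset (Fin m)}
    (hS : n + 2 ≤ S.card) (h : ∀ j ∈ S, dot (l j) v = 0) : v = 0 := by
  set s : Fin (n + 2) → Fin m := fun i => S.orderEmbOfCardLe hS i with hs
  have hsi : Function.Injective s := fun i j hij => (S.orderEmbOfCardLe hS).injective hij
  have h1 := hl s hsi
  have h2 : IsUnit (Matrix.of fun i : Fin (n + 2) => l (s i)) :=
    Matrix.linearIndependent_rows_iff_isUnit.1 h1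
  have h3 : (Matrix.of fun i : Fin (n + 2) => l (s i)).mulVec v = 0 := by
    funext i
    exact h (s i) (Finset.orderEmbOfCardLe_mem S hS i)
  have h4 := Matrix.mulVec_injective_iff_isUnit.2 h2
  apply h4
  rw [h3, Matrix.mulVec_zero]

private lemma D2Core_dot (M : Matrix (Fin (n + 2)) (Fin (n + 2)) ℂ) (hM : IsUnit M.det)
    (t v : Fin (n + 2) → ℂ) :
    dot (fun a => ∑ b, t b * M b a) (fun a => ∑ b, M⁻¹ a b * v b) = dot t v := by
  have h1 : ∀ x y : Fin (n + 2) → ℂ, dot x y = x ⬝ᵥ y := fun x y => rfl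
  have h2 : (fun a => ∑ b, t b * M b a) = Matrix.vecMul t M := by
    funext a
    rfl
  have h3 : (fun a => ∑ b, M⁻¹ a b * v b) = M⁻¹.mulVec v := by
    funext a
    rfl
  rw [h1, h1, h2, h3, Matrix.dotProduct_mulVec, Matrix.vecMul_vecMul, Matrix.mul_nonsing_inv M hM,
    Matrix.vecMul_one]

private lemma D2Core_lin (M : Matrix (Fin (n + 2)) (Fin (n + 2)) ℂ) (hM : IsUnit M.det)
    (t : Fin (n + 2) → ℂ) (g : Fin (n + 2) → ℂ → ℂ) :
    lin (fun a => ∑ b, t b * M b a) (fun a z => ∑ b, M⁻¹ a b * g b z) = lin t g := by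
  funext z
  exact D2Core_dot M hM t fun a => g a z

private lemma D2Core_smul (x : ℂ) (t : Fin (n + 2) → ℂ) (g : Fin (n + 2) → ℂ → ℂ) (z : ℂ) :
    lin (fun a => x * t a) g z = x * lin t g z := by
  unfold lin dot
  rw [Finset.mul_sum]
  exact Finset.sum_congr rfl fun a _ => mul_assoc _ _ _

/-- **The analytic core in the original coordinates.** -/
theorem core_analytic (h : Pkg l M κ N φ J c) {R₀ : ℝ} (hR₀ : 0 < R₀) {g : Fin (n + 2) → ℂ → ℂ}
    (hg : ∀ a z, 0 < ‖z‖ → ‖z‖ < R₀ → MeromorphicAt (g a) z)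
    (hΔ : ∀ z, 0 < ‖z‖ → ‖z‖ < R₀ →
      ∀ᶠ ζ in 𝓝[≠] z, MvPolynomial.eval (fun a => g a ζ) (DelM M κ N) ≠ 0)
    (hdich : ∀ i, MeroPunct R₀ (lin (l i) g) ∨
      ∀ z, 0 < ‖z‖ → ‖z‖ < R₀ → ∀ᶠ ζ in 𝓝[≠] z, lin (l i) g ζ = 0) {i₀ : Fin m}
    (hi₀ : ∀ z, 0 < ‖z‖ → ‖z‖ < R₀ → ∀ᶠ ζ in 𝓝[≠] z, lin (l i₀) g ζ = 1)
    (hmult : ∀ j, MeroPunct R₀ (lin (l j) g) → ∀ s, 0 < ‖s‖ → ‖s‖ < R₀ → ∀ μ : ℤ,
      (∀ i, MeroPunct R₀ (lin (l i) g) → μ ≤ ordZ (lin (l i) g) s) →
      (∃ i, MeroPunct R₀ (lin (l i) g) ∧ ordZ (lin (l i) g) s = μ) →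
      ordZ (lin (l j) g) s = μ ∨ μ + 2 ≤ ordZ (lin (l j) g) s) (i : Fin m) :
    PunctMero (lin (l i) g) := by
  classical
  -- the forms which do not vanish identically
  set S : Finset (Fin m) := Finset.univ.filter fun i => MeroPunct R₀ (lin (l i) g) with hSdef
  have hSmem : ∀ i, i ∈ S ↔ MeroPunct R₀ (lin (l i) g) := by
    intro i
    rw [hSdef, Finset.mem_filter]
    exact ⟨fun h => h.2, fun h => ⟨Finset.mem_univ _, h⟩⟩
  have hzero : ∀ i ∉ S, ∀ z, 0 < ‖z‖ → ‖z‖ < R₀ → ∀ᶠ ζ in 𝓝[≠] z, lin (l i) g ζ = 0 := by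
    intro i hi
    rcases hdich i with h1 | h1
    · exact absurd ((hSmem i).2 h1) hi
    · exact h1
  have hz₁ : 0 < ‖((R₀ / 2 : ℝ) : ℂ)‖ ∧ ‖((R₀ / 2 : ℝ) : ℂ)‖ < R₀ := by
    rw [Complex.norm_real, Real.norm_of_nonneg (by linarith)]
    constructor <;> linarith
  have hcompl : (Finset.univ \ S).card ≤ n + 1 := by
    by_contra hcon
    have h2 : n + 2 ≤ (Finset.univ \ S).card := by omega
    have h3 : ∀ᶠ ζ in 𝓝[≠] ((R₀ / 2 : ℝ) : ℂ), ∀ i ∈ Finset.univ \ S, lin (l i) g ζ = 0 := by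
      rw [Filter.eventually_all_finset]
      intro i hi
      exact hzero i (Finset.mem_sdiff.1 hi).2 _ hz₁.1 hz₁.2
    obtain ⟨ζ, h4, h5⟩ := (h3.and (hi₀ _ hz₁.1 hz₁.2)).exists
    have h6 : (fun a => g a ζ) = 0 := genPos_zero h.gen h2 h4
    have h7 : lin (l i₀) g ζ = 0 := by
      unfold lin
      rw [h6]
      simp [dot]
    rw [h7] at h5
    exact zero_ne_one h5
  have hScard : n + 2 ≤ S.card := by
    have h1 := Finset.card_sdiff_add_card_eq_card (Finset.subset_univ S)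
    rw [Finset.card_univ, Fintype.card_fin] at h1
    have := h.le_m
    omega
  -- the new data
  set lam : {i : Fin m // i ∈ S} → Fin (n + 2) → ℂ := fun i a => ∑ b, l i.1 b * M b a with hlam
  set g' : Fin (n + 2) → ℂ → ℂ := fun a z => ∑ b, M⁻¹ a b * g b z with hg'
  have hlin : ∀ i : {i : Fin m // i ∈ S}, lin (lam i) g' = lin (l i.1) g := fun i =>
    D2Core_lin M h.det (l i.1) g
  have hinj : ∀ v : Fin (n + 2) → ℂ, (∀ i, dot (lam i) v = 0) → v = 0 := by
    intro v hv
    have h1 : M.mulVec v = 0 := by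
      apply genPos_zero h.gen hScard
      intro j hj
      have h2 := hv ⟨j, hj⟩
      have h3 : v = fun a => ∑ b, M⁻¹ a b * (M.mulVec v) b := by
        have h4 : (fun a => ∑ b, M⁻¹ a b * (M.mulVec v) b) = M⁻¹.mulVec (M.mulVec v) := by
          funext a
          rfl
        rw [h4, Matrix.mulVec_mulVec, Matrix.nonsing_inv_mul M h.det, Matrix.one_mulVec]
      rw [h3] at h2
      rw [← D2Core_dot M h.det (l j) (M.mulVec v)]
      exact h2
    have h2 : M⁻¹.mulVec (M.mulVec v) = v := by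
      rw [Matrix.mulVec_mulVec, Matrix.nonsing_inv_mul M h.det, Matrix.one_mulVec]
    rw [← h2, h1, Matrix.mulVec_zero]
  obtain ⟨b, hb⟩ : ∃ b : Fin (n + 2) → {i : Fin m // i ∈ S} → ℂ,
      ∀ (v : Fin (n + 2) → ℂ) a, v a = ∑ i, b a i * dot (lam i) v := by
    let A : Matrix {i : Fin m // i ∈ S} (Fin (n + 2)) ℂ := Matrix.of lam
    have hA : LinearMap.ker A.mulVecLin = ⊥ := by
      rw [LinearMap.ker_eq_bot']
      intro v hv
      apply hinj
      intro i
      exact congrFun hv i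
    obtain ⟨F, hF⟩ := LinearMap.exists_leftInverse_of_injective A.mulVecLin hA
    refine ⟨fun a i => F (Pi.single i 1) a, fun v a => ?_⟩
    have h1 : F (A.mulVecLin v) = v := congrArg (fun f => f v) hF
    have h2 : A.mulVecLin v = ∑ i, dot (lam i) v • (Pi.single i (1 : ℂ) :
        {i : Fin m // i ∈ S} → ℂ) := by
      funext i
      rw [Finset.sum_apply, Finset.sum_eq_single i]
      · rw [Pi.smul_apply, Pi.single_eq_same, smul_eq_mul, mul_one]
        rfl
      · intro j _ hji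
        rw [Pi.smul_apply, Pi.single_eq_of_ne hji.symm, smul_zero]
      · intro hi
        exact absurd (Finset.mem_univ i) hi
    have h3 := congrFun h1 a
    rw [h2, map_sum, Finset.sum_apply] at h3
    rw [← h3]
    apply Finset.sum_congr rfl
    intro i _
    rw [map_smul, Pi.smul_apply, smul_eq_mul, mul_comm]
  have hg'm : ∀ a z, 0 < ‖z‖ → ‖z‖ < R₀ → MeromorphicAt (g' a) z := by
    intro a z h1 h2
    have h3 : g' a = ∑ b, fun z => M⁻¹ a b * g b z := by
      funext z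
      rw [Finset.sum_apply]
    rw [h3]
    exact MeromorphicAt.sum fun b _ => (MeromorphicAt.const _ _).mul (hg b z h1 h2)
  have hΔ' : ∀ z, 0 < ‖z‖ → ‖z‖ < R₀ →
      ∀ᶠ ζ in 𝓝[≠] z, MvPolynomial.eval (fun a => g' a ζ) (Del κ N) ≠ 0 := by
    intro z h1 h2
    filter_upwards [hΔ z h1 h2] with ζ h3
    rw [eval_DelM] at h3
    exact h3
  obtain ⟨T, hTcard, hTmem, _⟩ := exists_constants h.data hR₀ hg'm hΔ'
  -- the marked forms which do not vanish identically
  set J' : Finset {i : Fin m // i ∈ S} := Finset.univ.filter fun i => i.1 ∈ J with hJ'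
  have hJcard : J.card ≤ J'.card + κ := by
    have h1 : J.card = (J ∩ S).card + (J \ S).card := (Finset.card_inter_add_card_sdiff J S).symm
    have h2 : (J ∩ S).card ≤ J'.card := by
      apply Finset.card_le_card_of_surjOn (fun i : {i : Fin m // i ∈ S} => i.1)
      intro j hj
      rw [Finset.mem_coe, Finset.mem_inter] at hj
      refine ⟨⟨j, hj.2⟩, ?_, rfl⟩
      rw [Finset.mem_coe, hJ', Finset.mem_filter]
      exact ⟨Finset.mem_univ _, hj.1⟩
    have h3 : (J \ S).card ≤ T.card := by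
      apply Finset.card_le_card_of_injOn (fun j a => c j * ∑ b, l j b * M b a)
      · intro j hj
        rw [Finset.mem_coe, Finset.mem_sdiff] at hj
        rw [Finset.mem_coe, hTmem]
        refine ⟨h.marked.mem j hj.1, fun z h4 h5 => ?_⟩
        filter_upwards [hzero j hj.2 z h4 h5] with ζ h6
        rw [D2Core_smul, D2Core_lin M h.det, h6, mul_zero]
      · intro j hj j' hj' hjj
        exact h.marked.inj (Finset.mem_sdiff.1 hj).1 (Finset.mem_sdiff.1 hj').1 hjj
    omega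
  have hcard : 4 * κ < J'.card := by
    have h1 := h.card
    have h2 : (2 * n + 8) * κ = 2 * (n * κ) + 8 * κ := by ring
    have h4 := h.data.pos
    omega
  have hmarked : Marked N lam (fun i => c i.1) J' := by
    refine ⟨fun j hj => ?_, fun j hj => ?_, fun j hj j' hj' hjj => ?_⟩
    · exact h.marked.ne j.1 (Finset.mem_filter.1 hj).2
    · exact h.marked.mem j.1 (Finset.mem_filter.1 hj).2
    · rw [Finset.mem_coe, hJ', Finset.mem_filter] at hj hj'
      exact Subtype.ext (h.marked.inj hj.2 hj'.2 hjj)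
  by_cases hi : i ∈ S
  · have hi₀S : i₀ ∈ S := by
      by_contra hcon
      obtain ⟨ζ, h4, h5⟩ := ((hzero i₀ hcon _ hz₁.1 hz₁.2).and (hi₀ _ hz₁.1 hz₁.2)).exists
      rw [h4] at h5
      exact zero_ne_one h5
    have h1 := analytic_core h.data h.hom hb hmarked hcard hR₀ hg'm hΔ'
      (fun i => by rw [hlin]; exact (hSmem i.1).1 i.2) (i₀ := ⟨i₀, hi₀S⟩)
      (fun z h2 h3 => by rw [hlin]; exact hi₀ z h2 h3) ?_ ⟨i, hi⟩
    · rw [hlin] at h1
      exact h1
    · intro j _ s hs hs' μ h2 h3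
      rw [hlin]
      refine hmult j.1 ((hSmem j.1).1 j.2) s hs hs' μ (fun i hi => ?_) ?_
      · have := h2 ⟨i, (hSmem i).2 hi⟩
        rwa [hlin] at this
      · obtain ⟨i, hi⟩ := h3
        rw [hlin] at hi
        exact ⟨i.1, (hSmem i.1).1 i.2, hi⟩
  · refine ⟨fun _ => 0, MeromorphicAt.const 0 0, ?_⟩
    have h1 : ∀ᶠ z in 𝓝[≠] (0 : ℂ), ‖z‖ < R₀ ∧ z ≠ 0 := by
      refine Filter.Eventually.and ?_ (eventually_mem_nhdsWithin.mono fun z hz => hz)
      apply eventually_nhdsWithin_of_eventually_nhds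
      exact (continuous_norm.tendsto (0 : ℂ)).eventually_lt_const (by rw [norm_zero]; exact hR₀)
    filter_upwards [h1] with z hz
    exact hzero i hi z (norm_pos_iff.2 hz.2) hz.1

end

/-- **Existence of the data.** -/
theorem exists_pkg (n : ℕ) : ∃ N₀ : ℕ, 2 * n + 3 ≤ N₀ ∧
    ∀ (m : ℕ) (l : Fin m → Fin (n + 2) → ℂ), N₀ ≤ m → GenPos l →
    ∃ (M : Matrix (Fin (n + 2)) (Fin (n + 2)) ℂ) (κ : ℕ) (N : Polynomial (PV n)) (φ : PVW n)
      (J : Finset (Fin m)) (c : Fin m → ℂ), Pkg l M κ N φ J c := by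
  classical
  obtain ⟨N₀, hN₀, hpkg⟩ := package n (2 * n + 8)
  refine ⟨max N₀ (2 * n + 3), le_max_right _ _, fun m l hm hl => ?_⟩
  have hm1 : N₀ ≤ m := (le_max_left _ _).trans hm
  have hm2 : 2 * n + 3 ≤ m := (le_max_right _ _).trans hm
  obtain ⟨M, κ, N, φ, J, c, hM, hκ, hN, hnd, hφ, hdel, hhom, hcard, hJ⟩ := hpkg m l hm1 hl
  refine ⟨M, κ, N, φ, J, c, ⟨hl, hm2, hM, ⟨hκ, hN, hnd, hφ⟩, hdel, hhom, ⟨fun j hj => (hJ j hj).1,
    fun j hj => (hJ j hj).2, fun j hj j' hj' hjj => ?_⟩, hcard⟩⟩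
  by_contra hne
  -- the forms `l j` and `l j'` are proportional
  have h1 : ∀ b, c j * l j b = c j' * l j' b := by
    have h2 : Matrix.vecMul (fun b => c j * l j b) M = Matrix.vecMul (fun b => c j' * l j' b) M := by
      funext a
      have h3 := congrFun hjj a
      simp only [Finset.mul_sum] at h3
      change ∑ b, c j * l j b * M b a = ∑ b, c j' * l j' b * M b a
      simp only [mul_assoc]
      exact h3
    have h3 := congrArg (fun x => Matrix.vecMul x M⁻¹) h2
    simp only [Matrix.vecMul_vecMul, Matrix.mul_nonsing_inv M hM, Matrix.vecMul_one] at h3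
    exact fun b => congrFun h3 b
  obtain ⟨U, hU1, _, hU2⟩ := Finset.exists_subsuperset_card_eq
    (Finset.subset_univ ({j, j'} : Finset (Fin m))) (n := n + 2)
    (by rw [Finset.card_pair hne]; omega) (by rw [Finset.card_univ, Fintype.card_fin]; omega)
  obtain ⟨i, hi⟩ : ∃ i, U.orderEmbOfFin hU2 i = j := by
    have := Finset.range_orderEmbOfFin U hU2
    have h2 : j ∈ Set.range (U.orderEmbOfFin hU2) := by
      rw [this]
      exact hU1 (by simp)
    exact h2
  obtain ⟨i', hi'⟩ : ∃ i, U.orderEmbOfFin hU2 i = j' := by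
    have := Finset.range_orderEmbOfFin U hU2
    have h2 : j' ∈ Set.range (U.orderEmbOfFin hU2) := by
      rw [this]
      exact hU1 (by simp)
    exact h2
  have hii : i ≠ i' := by
    rintro rfl
    exact hne (hi.symm.trans hi')
  have h2 := hl (fun i => U.orderEmbOfFin hU2 i) (fun a b hab => (U.orderEmbOfFin hU2).injective hab)
  have h3 := Fintype.linearIndependent_iff.1 h2
    (fun k => if k = i then c j else if k = i' then -c j' else 0) (by
      rw [Finset.sum_eq_add_of_mem i i' (Finset.mem_univ _) (Finset.mem_univ _) hii]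
      · rw [if_pos rfl, if_neg hii.symm, if_pos rfl, hi, hi']
        funext b
        have := h1 b
        simp only [Pi.add_apply, Pi.smul_apply, smul_eq_mul, Pi.zero_apply]
        linear_combination this
      · intro k _ hk
        rw [if_neg hk.1, if_neg hk.2, zero_smul]) i
  rw [if_pos rfl] at h3
  exact (hJ j hj).1 h3

end Pool.Agent.H5.DG
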