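import Pool.Agent.H94.DG.H5.DG.ClusterA

/-!
# Project DG, module D2Pt: the pointwise inequality in terms of the linear forms

Proof of `pt_est`: `cluster_pi` with `p j = fun a => c j * lam j a`.  Put `e = T.card`,
`Ls i = ‖dot (lam i) w / dot (lam i) v‖`.  (`H > 0` since some `‖dot (lam i) v‖ = H`, and
`dot (lam i) v ≠ 0`.)  With `B = ∑ a, ∑ i, ‖b a i‖` and `A = ∑ i, ∑ a, ‖lam i a‖`:
`‖v‖ ≤ B * H` by `hb`, `H ≤ A * ‖v‖` (so `v ≠ 0`), `‖w a‖ ≤ ∑ i, ‖b a i‖ * ‖dot (lam i) w‖ ≤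
∑ i, ‖b a i‖ * Ls i * H`, so `‖w‖ ≤ B * (∑ Ls) * H` and `‖w‖ / ‖v‖ ≤ A * B * ∑ Ls`; the quotients
`‖dot (p j) w‖ / ‖dot (p j) v‖` are `Ls j` (`c j ≠ 0`), so the big bracket is at most
`(A * B + 1) * (1 + ∑ Ls)`.  `H ^ J.card ≤ A ^ J.card * ‖v‖ ^ J.card`,
`‖v‖ ^ (2 * κ - e) ≤ B ^ (..) * H ^ (..)`, `∏ ‖dot (p j) v‖ = ∏ ‖c j‖ * ∏ ‖dot (lam j) v‖`.
-/

open MvPolynomial

noncomputable section

namespace Pool.Agent.H5.DG

/-- The data of the norm form and its Chow form. -/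
structure DGData {n : ℕ} (κ : ℕ) (N : Polynomial (PV n)) (φ : PVW n) : Prop where
  pos : 1 ≤ κ
  norm : IsNormForm κ N
  nondeg : Nondeg N
  chow : IsChow κ N φ

/-- The forms `lam j`, `j ∈ J`, are, up to scaling, distinct points of the curve. -/
structure Marked {n : ℕ} (N : Polynomial (PV n)) {ι : Type} (lam : ι → Fin (n + 2) → ℂ)
    (c : ι → ℂ) (J : Finset ι) : Prop where
  ne : ∀ j ∈ J, c j ≠ 0
  mem : ∀ j ∈ J, (fun a => c j * lam j a) ∈ Gam N ℂ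
  inj : Set.InjOn (fun j a => c j * lam j a) (J : Set ι)

private theorem dot_smul_left {n : ℕ} (c : ℂ) (l v : Fin (n + 2) → ℂ) :
    dot (fun a => c * l a) v = c * dot l v := by
  unfold dot
  rw [Finset.mul_sum]
  exact Finset.sum_congr rfl fun a _ => by ring

private theorem norm_dot_le {n : ℕ} (l v : Fin (n + 2) → ℂ) :
    ‖dot l v‖ ≤ (∑ a, ‖l a‖) * ‖v‖ := by
  unfold dot
  refine (norm_sum_le _ _).trans ?_
  rw [Finset.sum_mul]
  refine Finset.sum_le_sum fun a _ => ?_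
  rw [norm_mul]
  exact mul_le_mul_of_nonneg_left (norm_le_pi_norm v a) (norm_nonneg _)

/-- The elementary estimates. -/
private theorem ptE {n : ℕ} {ι : Type} [Fintype ι] {lam : ι → Fin (n + 2) → ℂ}
    {b : Fin (n + 2) → ι → ℂ}
    (hb : ∀ (v : Fin (n + 2) → ℂ) a, v a = ∑ i, b a i * dot (lam i) v)
    (v w : Fin (n + 2) → ℂ) (hv : ∀ i, dot (lam i) v ≠ 0) (H : ℝ)
    (hH : ∀ i, ‖dot (lam i) v‖ ≤ H) (hH' : ∃ i, ‖dot (lam i) v‖ = H) :
    0 < H ∧ H ≤ (∑ i, ∑ a, ‖lam i a‖) * ‖v‖ ∧ ‖v‖ ≤ (∑ a, ∑ i, ‖b a i‖) * H ∧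
      ‖w‖ ≤ (∑ a, ∑ i, ‖b a i‖) * (∑ i, ‖dot (lam i) w / dot (lam i) v‖) * H := by
  obtain ⟨i₀, hi₀⟩ := hH'
  have hH0 : 0 < H := by
    rw [← hi₀]
    exact norm_pos_iff.2 (hv i₀)
  have hB : ∀ a, ∑ i, ‖b a i‖ ≤ ∑ a, ∑ i, ‖b a i‖ := fun a =>
    Finset.single_le_sum (f := fun a => ∑ i, ‖b a i‖)
      (fun _ _ => Finset.sum_nonneg fun _ _ => norm_nonneg _) (Finset.mem_univ a)
  have hB0 : 0 ≤ ∑ a, ∑ i, ‖b a i‖ :=
    Finset.sum_nonneg fun _ _ => Finset.sum_nonneg fun _ _ => norm_nonneg _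
  have hS0 : 0 ≤ ∑ i, ‖dot (lam i) w / dot (lam i) v‖ := Finset.sum_nonneg fun _ _ => norm_nonneg _
  refine ⟨hH0, ?_, ?_, ?_⟩
  · rw [← hi₀]
    refine (norm_dot_le _ _).trans (mul_le_mul_of_nonneg_right ?_ (norm_nonneg _))
    exact Finset.single_le_sum (f := fun i => ∑ a, ‖lam i a‖)
      (fun _ _ => Finset.sum_nonneg fun _ _ => norm_nonneg _) (Finset.mem_univ i₀)
  · rw [pi_norm_le_iff_of_nonneg (by positivity)]
    intro a
    rw [hb v a]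
    refine (norm_sum_le _ _).trans ?_
    calc ∑ i, ‖b a i * dot (lam i) v‖ ≤ ∑ i, ‖b a i‖ * H := by
          refine Finset.sum_le_sum fun i _ => ?_
          rw [norm_mul]
          exact mul_le_mul_of_nonneg_left (hH i) (norm_nonneg _)
      _ = (∑ i, ‖b a i‖) * H := by rw [Finset.sum_mul]
      _ ≤ _ := mul_le_mul_of_nonneg_right (hB a) hH0.le
  · rw [pi_norm_le_iff_of_nonneg (by positivity)]
    intro a
    rw [hb w a]
    refine (norm_sum_le _ _).trans ?_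
    calc ∑ i, ‖b a i * dot (lam i) w‖
        ≤ ∑ i, ‖b a i‖ * ((∑ i, ‖dot (lam i) w / dot (lam i) v‖) * H) := by
          refine Finset.sum_le_sum fun i _ => ?_
          rw [norm_mul]
          refine mul_le_mul_of_nonneg_left ?_ (norm_nonneg _)
          have h1 : ‖dot (lam i) w‖ = ‖dot (lam i) w / dot (lam i) v‖ * ‖dot (lam i) v‖ := by
            rw [← norm_mul, div_mul_cancel₀ _ (hv i)]
          rw [h1]
          have h2 : ‖dot (lam i) w / dot (lam i) v‖ ≤ ∑ i, ‖dot (lam i) w / dot (lam i) v‖ :=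
            Finset.single_le_sum (f := fun i => ‖dot (lam i) w / dot (lam i) v‖)
              (fun _ _ => norm_nonneg _) (Finset.mem_univ i)
          exact mul_le_mul h2 (hH i) (norm_nonneg _) hS0
      _ = (∑ i, ‖b a i‖) * ((∑ i, ‖dot (lam i) w / dot (lam i) v‖) * H) :=
          (Finset.sum_mul _ _ _).symm
      _ ≤ (∑ a, ∑ i, ‖b a i‖) * ((∑ i, ‖dot (lam i) w / dot (lam i) v‖) * H) :=
          mul_le_mul_of_nonneg_right (hB a) (by positivity)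
      _ = _ := by ring

/-- The pointwise inequality. -/
theorem pt_est {n κ : ℕ} {N : Polynomial (PV n)} {φ : PVW n} (hd : DGData κ N φ) {ι : Type}
    [Fintype ι] {lam : ι → Fin (n + 2) → ℂ} {b : Fin (n + 2) → ι → ℂ}
    (hb : ∀ (v : Fin (n + 2) → ℂ) a, v a = ∑ i, b a i * dot (lam i) v) {c : ι → ℂ} {J : Finset ι}
    (hJ : Marked N lam c J) (T : Finset (Fin (n + 2) → ℂ)) (hT : ∀ τ ∈ T, τ ∈ Gam N ℂ)
    (hJT : ∀ j ∈ J, (fun a => c j * lam j a) ∉ T) :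
    ∃ C : ℝ, ∀ v w : Fin (n + 2) → ℂ, MvPolynomial.eval v (Del κ N) ≠ 0 →
      (∀ τ ∈ T, dot τ v = 0) → (∀ τ ∈ T, dot τ w = 0) → (∀ i, dot (lam i) v ≠ 0) →
      ∀ H : ℝ, (∀ i, ‖dot (lam i) v‖ ≤ H) → (∃ i, ‖dot (lam i) v‖ = H) →
      ‖evVW (Phi φ T.card) v w‖ * H ^ J.card ≤
        C * H ^ (2 * κ - T.card) * (∏ j ∈ J, ‖dot (lam j) v‖) *
          (1 + ∑ i, ‖dot (lam i) w / dot (lam i) v‖) ^ (κ - T.card) := by
  obtain ⟨K, hK, hmain⟩ := cluster_pi hd.pos hd.norm hd.nondeg hd.chow J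
    (fun j a => c j * lam j a) hJ.mem hJ.inj T hT hJT
  set A : ℝ := ∑ i, ∑ a, ‖lam i a‖ with hA
  set B : ℝ := ∑ a, ∑ i, ‖b a i‖ with hB
  refine ⟨A ^ J.card * K * B ^ (2 * κ - T.card) * (∏ j ∈ J, ‖c j‖) *
    (A * B + 1) ^ (κ - T.card), fun v w hΔ hTv hTw hv H hH hH' => ?_⟩
  obtain ⟨hH0, h1, h2, h3⟩ := ptE hb v w hv H hH hH'
  rw [← hA] at h1
  rw [← hB] at h2 h3
  set S : ℝ := ∑ i, ‖dot (lam i) w / dot (lam i) v‖ with hS
  have hS0 : 0 ≤ S := Finset.sum_nonneg fun _ _ => norm_nonneg _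
  have hA0 : 0 ≤ A := Finset.sum_nonneg fun _ _ => Finset.sum_nonneg fun _ _ => norm_nonneg _
  have hB0 : 0 ≤ B := Finset.sum_nonneg fun _ _ => Finset.sum_nonneg fun _ _ => norm_nonneg _
  have hv0 : 0 < ‖v‖ := by
    rcases (norm_nonneg v).eq_or_lt with h | h
    · rw [← h, mul_zero] at h1
      linarith
    · exact h
  have hm := hmain v w hΔ hTv hTw (fun j hj => by
    rw [dot_smul_left]
    exact mul_ne_zero (hJ.ne j hj) (hv j))
  have e1 : ∏ j ∈ J, ‖dot (fun a => c j * lam j a) v‖ =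
      (∏ j ∈ J, ‖c j‖) * ∏ j ∈ J, ‖dot (lam j) v‖ := by
    rw [← Finset.prod_mul_distrib]
    refine Finset.prod_congr rfl fun j _ => ?_
    rw [dot_smul_left, norm_mul]
  have e2 : ∑ j ∈ J, ‖dot (fun a => c j * lam j a) w‖ / ‖dot (fun a => c j * lam j a) v‖ ≤ S := by
    have h4 : ∀ j ∈ J, ‖dot (fun a => c j * lam j a) w‖ / ‖dot (fun a => c j * lam j a) v‖ =
        ‖dot (lam j) w / dot (lam j) v‖ := by
      intro j hj
      rw [dot_smul_left, dot_smul_left, norm_mul, norm_mul, norm_div,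
        mul_div_mul_left _ _ (norm_ne_zero_iff.2 (hJ.ne j hj))]
    rw [Finset.sum_congr rfl h4]
    exact Finset.sum_le_sum_of_subset_of_nonneg (Finset.subset_univ J) fun _ _ _ => norm_nonneg _
  have e3 : ‖w‖ / ‖v‖ ≤ A * B * S := by
    rw [div_le_iff₀ hv0]
    calc ‖w‖ ≤ B * S * H := h3
      _ ≤ B * S * (A * ‖v‖) := mul_le_mul_of_nonneg_left h1 (by positivity)
      _ = A * B * S * ‖v‖ := by ring
  have e4 : ‖w‖ / ‖v‖ + ∑ j ∈ J, ‖dot (fun a => c j * lam j a) w‖ /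
      ‖dot (fun a => c j * lam j a) v‖ ≤ (A * B + 1) * (1 + S) := by
    have h5 : (A * B + 1) * (1 + S) = A * B * S + S + (A * B + 1) := by ring
    have h6 : 0 ≤ A * B + 1 := by positivity
    linarith
  have e5 : 0 ≤ ‖w‖ / ‖v‖ + ∑ j ∈ J, ‖dot (fun a => c j * lam j a) w‖ /
      ‖dot (fun a => c j * lam j a) v‖ :=
    add_nonneg (by positivity) (Finset.sum_nonneg fun _ _ => by positivity)
  have e6 := pow_le_pow_left₀ e5 e4 (κ - T.card)
  have e7 := pow_le_pow_left₀ (norm_nonneg v) h2 (2 * κ - T.card)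
  have e8 := pow_le_pow_left₀ hH0.le h1 J.card
  rw [e1] at hm
  have hP : 0 ≤ ∏ j ∈ J, ‖dot (lam j) v‖ := Finset.prod_nonneg fun _ _ => norm_nonneg _
  have hQ : 0 ≤ ∏ j ∈ J, ‖c j‖ := Finset.prod_nonneg fun _ _ => norm_nonneg _
  calc ‖evVW (Phi φ T.card) v w‖ * H ^ J.card
      ≤ ‖evVW (Phi φ T.card) v w‖ * (A * ‖v‖) ^ J.card :=
        mul_le_mul_of_nonneg_left e8 (norm_nonneg _)
    _ = A ^ J.card * (‖evVW (Phi φ T.card) v w‖ * ‖v‖ ^ J.card) := by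
        rw [mul_pow]
        ring
    _ ≤ A ^ J.card * (K * ‖v‖ ^ (2 * κ - T.card) * ((∏ j ∈ J, ‖c j‖) *
          ∏ j ∈ J, ‖dot (lam j) v‖) * (‖w‖ / ‖v‖ + ∑ j ∈ J, ‖dot (fun a => c j * lam j a) w‖ /
            ‖dot (fun a => c j * lam j a) v‖) ^ (κ - T.card)) :=
        mul_le_mul_of_nonneg_left hm (pow_nonneg hA0 _)
    _ ≤ A ^ J.card * (K * (B * H) ^ (2 * κ - T.card) * ((∏ j ∈ J, ‖c j‖) *
          ∏ j ∈ J, ‖dot (lam j) v‖) * ((A * B + 1) * (1 + S)) ^ (κ - T.card)) := by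
        refine mul_le_mul_of_nonneg_left ?_ (pow_nonneg hA0 _)
        refine mul_le_mul ?_ e6 (pow_nonneg e5 _) (by positivity)
        refine mul_le_mul_of_nonneg_right ?_ (by positivity)
        exact mul_le_mul_of_nonneg_left e7 hK.le
    _ = _ := by
        rw [mul_pow, mul_pow]
        ring

end Pool.Agent.H5.DG
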