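import Pool.Agent.H94.DG.H5.DG.D2Core
import Pool.Agent.H94.DG.M03
import Pool.Agent.H94.DG.M11
import Pool.Agent.H94.DG.M29
import Pool.Agent.H94.DG.M37

/-!
# Project DG, module EGenA: the pluricanonical forms on the subvarieties of covers

`Θ = P (v, Dv) ^ 2 / ∏ L j (x)`, weight `2 (κ - t)`, where `L j` are the forms which belong to the
marked points that are not constant. Let `E` be a prime divisor, normalise the coordinates so that
they are regular along `E` and one of them is `1`. Then the forms `F a` are regular and one of them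
is a unit (`EG_base`), and the order of `L j` is `0` or at least `2` if `E` is not in the boundary
(`EG_ram`). The cluster inequality gives the order of `Θ` (`EG_est`).
-/

open MvPolynomial
open Pool.Agent.H23 (RatForm regularForms PrimeDivisorOver dualDer dualDer_apply)
open Pool.Agent.H17LG (IsLogGeneralType)
open Pool.Agent.H17LG.Variety (FunField ratio)
open Pool.Agent.H17GT (coordFun functionField)
open Pool.Agent.H92.GT (loss localDer_loss exists_const_of_D_eq_zero isLogGeneralType_of_function)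
open Pool.Agent.H92.GT.Proj (exists_coordFun_ne_zero proj_point aeval_scale)

noncomputable section

namespace Pool.Agent.H5.DG

section

variable {K : Type} [Field K] [Algebra ℂ K]

private lemma EG_der_sum {ι : Type*} (S : Finset ι) (D : ι → Derivation ℂ K K) (g : K) :
    (∑ i ∈ S, D i) g = ∑ i ∈ S, D i g := by
  classical
  induction S using Finset.induction_on with
  | empty => simp
  | insert a S ha ih => rw [Finset.sum_insert ha, Finset.sum_insert ha, Derivation.add_apply, ih]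

private lemma EG_dot_smul_right {m : ℕ} (t x : Fin m → K) (s : K) :
    dot t (fun a => s * x a) = s * dot t x := by
  unfold dot
  rw [Finset.mul_sum]
  exact Finset.sum_congr rfl fun a _ => by ring

private lemma EG_dot_toL_smul {m : ℕ} (c : ℂ) (t : Fin m → ℂ) (x : Fin m → K) :
    dot (toL K (fun a => c * t a)) x = algebraMap ℂ K c * dot (toL K t) x := by
  unfold dot toL
  rw [Finset.mul_sum]
  exact Finset.sum_congr rfl fun a _ => by rw [map_mul]; ring

private lemma EG_der_dot {m : ℕ} (δ : Derivation ℂ K K) (t : Fin m → ℂ) (x : Fin m → K) :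
    dot (toL K t) (fun a => δ (x a)) = δ (dot (toL K t) x) := by
  unfold dot toL
  rw [map_sum]
  refine Finset.sum_congr rfl fun a _ => ?_
  rw [δ.leibniz, δ.map_algebraMap, smul_zero, add_zero, smul_eq_mul]

private lemma EG_aeval_scale {σ : Type} [Fintype σ] {G : MvPolynomial σ ℂ} {e : ℕ}
    (hG : G.IsHomogeneous e) (c : K) (x : σ → K) :
    aeval (fun i => c * x i) G = c ^ e * aeval x G := by
  rw [aeval_def, aeval_def, eval₂_eq, eval₂_eq, Finset.mul_sum]
  refine Finset.sum_congr rfl fun m hm => ?_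
  have h5 : ∑ i ∈ m.support, m i = e := by
    have := hG (mem_support_iff.1 hm)
    rw [Finsupp.weight_apply, Finsupp.sum] at this
    simpa using this
  simp only [mul_pow, Finset.prod_mul_distrib]
  rw [Finset.prod_pow_eq_pow_sum, h5]
  ring

section

variable {u : AddValuation K (WithTop ℤ)}

private lemma EG_mul_eq {f g : K} {a b : ℤ} (hf : u f = ((a : ℤ) : WithTop ℤ))
    (hg : u g = ((b : ℤ) : WithTop ℤ)) : u (f * g) = ((a + b : ℤ) : WithTop ℤ) := by
  rw [u.map_mul, hf, hg, ← WithTop.coe_add]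

private lemma EG_mul_le {f g : K} {a b : ℤ} (hf : ((a : ℤ) : WithTop ℤ) ≤ u f)
    (hg : ((b : ℤ) : WithTop ℤ) ≤ u g) : ((a + b : ℤ) : WithTop ℤ) ≤ u (f * g) := by
  rw [u.map_mul, WithTop.coe_add]
  exact add_le_add hf hg

private lemma EG_pow {f : K} {a : ℤ} (h : u f = ((a : ℤ) : WithTop ℤ)) (m : ℕ) :
    u (f ^ m) = ((m * a : ℤ) : WithTop ℤ) := by
  induction m with
  | zero => simp
  | succ m ih =>
    rw [pow_succ, EG_mul_eq ih h]
    congr 1
    push_cast
    ring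

private lemma EG_prod {ι : Type} (S : Finset ι) {f : ι → K} {a : ι → ℤ}
    (h : ∀ j ∈ S, u (f j) = ((a j : ℤ) : WithTop ℤ)) :
    u (∏ j ∈ S, f j) = ((∑ j ∈ S, a j : ℤ) : WithTop ℤ) := by
  classical
  induction S using Finset.induction_on with
  | empty => simp
  | insert i S hi ih =>
    rw [Finset.prod_insert hi, Finset.sum_insert hi]
    exact EG_mul_eq (h i (Finset.mem_insert_self i S))
      (ih fun j hj => h j (Finset.mem_insert_of_mem hj))

private lemma EG_ne {f : K} {a : ℤ} (h : u f = ((a : ℤ) : WithTop ℤ)) : f ≠ 0 := by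
  rintro rfl
  rw [u.map_zero] at h
  exact absurd h.symm (WithTop.coe_ne_top)

private lemma EG_exists {f : K} (h : f ≠ 0) : ∃ a : ℤ, u f = ((a : ℤ) : WithTop ℤ) := by
  have := (u.ne_top_iff).2 h
  exact ⟨(u f).untop this, by simp⟩

private lemma EG_inv {f : K} {a : ℤ} (h : u f = ((a : ℤ) : WithTop ℤ)) :
    u f⁻¹ = ((-a : ℤ) : WithTop ℤ) := by
  obtain ⟨c, hc⟩ := EG_exists (u := u) (inv_ne_zero (EG_ne h))
  have h1 := EG_mul_eq h hc
  rw [mul_inv_cancel₀ (EG_ne h), u.map_one] at h1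
  have h2 : 0 = a + c := by exact_mod_cast h1
  rw [hc]
  congr 1
  omega

private lemma EG_const {c : ℂ} (hu : ∀ c : ℂ, 0 ≤ u (algebraMap ℂ K c)) (hc : c ≠ 0) :
    u (algebraMap ℂ K c) = 0 := Pool.Agent.H92.GT.val_const hu hc

/-- **The estimate at a prime divisor.** -/
private theorem EG_est {n κ e m : ℕ} {N : Polynomial (PV n)} {φ : PVW n}
    (hD : DGData κ N φ) (hom : ∃ k, (Del κ N).IsHomogeneous k) {v : Fin (n + 2) → K}
    {lam : Fin m → Fin (n + 2) → ℂ} {c : Fin m → ℂ} {J : Finset (Fin m)}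
    (hJ : Marked N lam c J) (hΔ : MvPolynomial.aeval v (Del κ N) ≠ 0)
    (T : Finset (Fin (n + 2) → ℂ)) (hT : ∀ τ ∈ T, τ ∈ Gam N ℂ)
    (hTv : ∀ τ ∈ T, dot (toL K τ) v = 0) (hJT : ∀ j ∈ J, (fun a => c j * lam j a) ∉ T)
    (hu : ∀ c : ℂ, 0 ≤ u (algebraMap ℂ K c)) {x₁ : K} {r : ℕ}
    (hx₁ : u x₁ = ((-(r : ℤ) : ℤ) : WithTop ℤ)) (hv0 : ∀ a, 0 ≤ u ((x₁⁻¹) ^ e * v a))
    (hv1 : ∃ a, u ((x₁⁻¹) ^ e * v a) = 0) {o : Fin m → ℕ}
    (ho : ∀ j ∈ J, u ((x₁⁻¹) ^ e * dot (toL K (lam j)) v) = ((o j : ℤ) : WithTop ℤ)) {g₀ : K}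
    (hg₀ : u g₀ = 1) {det : K} {δ : Derivation ℂ K K} {L : ℕ} {a : Fin m → ℕ}
    (ha : ∀ j ∈ J, a j ≤ o j)
    (h1 : ∀ j ∈ J, ((-(L : ℤ) + a j : ℤ) : WithTop ℤ) ≤
      u (det * δ ((x₁⁻¹) ^ e * dot (toL K (lam j)) v)))
    (h2 : ∀ f, 0 ≤ u f → ((-(L : ℤ) : ℤ) : WithTop ℤ) ≤ u (det * δ f)) {y : K}
    (hy : ((-(r : ℤ) : ℤ) : WithTop ℤ) ≤ u y) :
    ((2 * (-((κ : ℤ) * (e * r)) - ((κ - T.card : ℕ) : ℤ) * (e * r) -
        ((κ - T.card : ℕ) : ℤ) * L + ∑ j ∈ J, (a j : ℤ)) +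
        ((J.card : ℤ) * (e * r) - ∑ j ∈ J, (o j : ℤ)) - r : ℤ) : WithTop ℤ) ≤
      u (evVW (Phi φ T.card) v (fun a => δ (v a)) ^ 2 *
        (∏ j ∈ J, dot (toL K (lam j)) v)⁻¹ * y * det ^ (2 * (κ - T.card))) := by
  classical
  set s : K := x₁⁻¹ with hs
  have hx0 : x₁ ≠ 0 := EG_ne hx₁
  have hs0 : s ≠ 0 := inv_ne_zero hx0
  have hxs1 : x₁ * s = 1 := mul_inv_cancel₀ hx0
  set vh : Fin (n + 2) → K := fun a => s ^ e * v a with hvh
  set w : Fin (n + 2) → K := fun a => det * δ (vh a) with hw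
  have hdot : ∀ t : Fin (n + 2) → ℂ, dot (toL K t) vh = s ^ e * dot (toL K t) v := fun t => by
    rw [hvh, EG_dot_smul_right]
  have hdotw : ∀ t : Fin (n + 2) → ℂ, dot (toL K t) w = det * δ (dot (toL K t) vh) := by
    intro t
    rw [hw, EG_dot_smul_right, EG_der_dot]
  have hg : u (g₀⁻¹) = ((-1 : ℤ) : WithTop ℤ) := EG_inv (a := 1) (by rw [hg₀]; rfl)
  have hgL : u ((g₀⁻¹) ^ L) = ((-(L : ℤ) : ℤ) : WithTop ℤ) := by
    rw [EG_pow hg]
    congr 1
    ring
  have hga : ∀ j, u (g₀ ^ a j) = ((a j : ℤ) : WithTop ℤ) := by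
    intro j
    rw [EG_pow (a := 1) (by rw [hg₀]; rfl)]
    congr 1
    ring
  -- the cluster inequality
  have hcl := cluster_ord hD.pos hD.norm hD.nondeg hD.chow J (fun j a => c j * lam j a)
    (fun j hj => hJ.mem j hj) hJ.inj T hT hJT u hu vh w hv0 hv1
    (by
      obtain ⟨k, hk⟩ := hom
      have h5 : MvPolynomial.aeval vh (Del κ N) = (s ^ e) ^ k * MvPolynomial.aeval v (Del κ N) := by
        rw [hvh]
        exact EG_aeval_scale hk (s ^ e) v
      rw [h5]
      exact mul_ne_zero (pow_ne_zero _ (pow_ne_zero _ hs0)) hΔ)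
    (fun τ hτ => by rw [hdot, hTv τ hτ, mul_zero])
    (fun τ hτ => by rw [hdotw, hdot, hTv τ hτ, mul_zero, map_zero, mul_zero])
    (fun j => g₀ ^ a j) ((g₀⁻¹) ^ L) (fun j _ => by
      rw [hga]
      exact_mod_cast Nat.zero_le _)
    (fun j hj => by
      rw [EG_dot_toL_smul, hdot, u.map_mul, EG_const hu (hJ.ne j hj), zero_add, ho j hj, hga]
      exact_mod_cast ha j hj)
    (fun j hj => by
      rw [EG_dot_toL_smul, hdotw, hdot, u.map_mul (algebraMap ℂ K (c j)),
        EG_const hu (hJ.ne j hj), zero_add, EG_mul_eq hgL (hga j)]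
      exact h1 j hj)
    (fun b => by
      rw [hgL]
      exact h2 _ (hv0 b))
  rw [EG_mul_eq (EG_pow hgL (κ - T.card)) (EG_prod J fun j _ => hga j)] at hcl
  -- scaling
  have hscale : evVW (Phi φ T.card) v (fun a => δ (v a)) * det ^ (κ - T.card) =
      (x₁ ^ e) ^ κ * (x₁ ^ e) ^ (κ - T.card) * evVW (Phi φ T.card) vh w := by
    have hv' : ∀ a, v a = x₁ ^ e * vh a := by
      intro a
      rw [hvh]
      show v a = x₁ ^ e * (s ^ e * v a)
      rw [← mul_assoc, ← mul_pow, hxs1, one_pow, one_mul]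
    have h1 := evVW_Phi_scale hD.norm hD.chow T.card vh (fun a => δ (vh a)) (x₁ ^ e) (x₁ ^ e)
      (δ (x₁ ^ e))
    have h2 := evVW_Phi_scale hD.norm hD.chow T.card vh (fun a => δ (vh a)) 1 det 0
    have e1 : (fun i => x₁ ^ e * vh i) = v := funext fun a => (hv' a).symm
    have e2 : (fun i => x₁ ^ e * δ (vh i) + δ (x₁ ^ e) * vh i) = fun a => δ (v a) := by
      funext a
      have h3 : δ (v a) = δ (x₁ ^ e * vh a) := congrArg δ (hv' a)
      show x₁ ^ e * δ (vh a) + δ (x₁ ^ e) * vh a = δ (v a)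
      rw [h3, δ.leibniz (x₁ ^ e) (vh a), smul_eq_mul, smul_eq_mul, mul_comm (vh a)]
    have e3 : (fun i => (1 : K) * vh i) = vh := funext fun a => one_mul _
    have e4 : (fun i => det * δ (vh i) + 0 * vh i) = w := by
      funext a
      rw [hw, zero_mul, add_zero]
    rw [e1, e2] at h1
    rw [e3, e4, one_pow, one_mul] at h2
    rw [h1, h2]
    ring
  have hxe : u (x₁ ^ e) = ((-((e : ℤ) * r) : ℤ) : WithTop ℤ) := by
    rw [EG_pow hx₁]
    congr 1
    ring
  have hse : u (s ^ e) = (((e : ℤ) * r : ℤ) : WithTop ℤ) := by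
    rw [EG_pow (EG_inv hx₁)]
    congr 1
    ring
  have hLj : ∀ j ∈ J, u (dot (toL K (lam j)) v) = (((o j : ℤ) - e * r : ℤ) : WithTop ℤ) := by
    intro j hj
    have h5 : dot (toL K (lam j)) v = x₁ ^ e * (s ^ e * dot (toL K (lam j)) v) := by
      rw [← mul_assoc, ← mul_pow, hxs1, one_pow, one_mul]
    rw [h5, EG_mul_eq hxe (ho j hj)]
    congr 1
    ring
  have hprod := EG_inv (EG_prod J hLj)
  have hmain : evVW (Phi φ T.card) v (fun a => δ (v a)) ^ 2 *
      (∏ j ∈ J, dot (toL K (lam j)) v)⁻¹ * y * det ^ (2 * (κ - T.card)) =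
      ((x₁ ^ e) ^ κ * (x₁ ^ e) ^ (κ - T.card) * evVW (Phi φ T.card) vh w) *
      ((x₁ ^ e) ^ κ * (x₁ ^ e) ^ (κ - T.card) * evVW (Phi φ T.card) vh w) *
      (∏ j ∈ J, dot (toL K (lam j)) v)⁻¹ * y := by
    rw [← hscale]
    ring
  rw [hmain]
  have h5 := EG_mul_le ((EG_mul_eq (EG_pow hxe κ) (EG_pow hxe (κ - T.card))).ge) hcl
  have h6 := EG_mul_le (EG_mul_le (EG_mul_le h5 h5) hprod.ge) hy
  refine le_trans (le_of_eq ?_) h6
  congr 1
  rw [Finset.sum_sub_distrib, Finset.sum_const, nsmul_eq_mul]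
  ring

/-- The polynomials whose value has order at least `c`. -/
private def EG_ideal (u : AddValuation K (WithTop ℤ)) {q : ℕ} (y : Fin q → K)
    (hy : ∀ G : MvPolynomial (Fin q) ℂ, 0 ≤ u (aeval y G)) (c : WithTop ℤ) :
    Ideal (MvPolynomial (Fin q) ℂ) where
  carrier := {G | c ≤ u (aeval y G)}
  add_mem' := by
    intro G H hG hH
    rw [Set.mem_ofPred_eq, map_add]
    exact (le_min hG hH).trans (u.map_add _ _)
  zero_mem' := by
    rw [Set.mem_ofPred_eq, map_zero, u.map_zero]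
    exact le_top
  smul_mem' := by
    intro G H hH
    rw [Set.mem_ofPred_eq, smul_eq_mul, map_mul, u.map_mul]
    exact le_trans hH (le_add_of_nonneg_left (hy G))

private lemma EG_nonneg (hu : ∀ c : ℂ, 0 ≤ u (algebraMap ℂ K c)) {q : ℕ} {y : Fin q → K}
    (hy : ∀ i, 0 ≤ u (y i)) (G : MvPolynomial (Fin q) ℂ) : 0 ≤ u (aeval y G) := by
  induction G using MvPolynomial.induction_on with
  | C a =>
    rw [aeval_C]
    exact hu a
  | add p p' h h' =>
    rw [map_add]
    exact (le_min h h').trans (u.map_add _ _)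
  | mul_X p i h =>
    rw [map_mul, aeval_X, u.map_mul]
    exact add_nonneg h (hy i)

private lemma EG_pos_iff {f : K} : 0 < u f ↔ ((1 : ℤ) : WithTop ℤ) ≤ u f := by
  induction u f using WithTop.recTopCoe with
  | top => simp
  | coe a =>
    constructor
    · intro h
      have h1 : (0 : ℤ) < a := by exact_mod_cast h
      exact_mod_cast (by omega : (1 : ℤ) ≤ a)
    · intro h
      have h1 : (1 : ℤ) ≤ a := by exact_mod_cast h
      exact_mod_cast (by omega : (0 : ℤ) < a)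

/-- The forms without common zero. -/
private theorem EG_base {q m : ℕ} {y : Fin q → K} {I : Ideal (MvPolynomial (Fin q) ℂ)}
    (hy : ∀ G : MvPolynomial (Fin q) ℂ, 0 ≤ u (aeval y G)) (hI : ∀ G ∈ I, aeval y G = 0)
    {F : Fin m → MvPolynomial (Fin q) ℂ} {i : Fin q} (hi : y i = 1) {k : ℕ}
    (hk : X i ^ k ∈ Ideal.span (Set.range F) ⊔ I) : ∃ a, u (aeval y (F a)) = 0 := by
  by_contra hcon
  push Not at hcon
  have h1 : ∀ a, 0 < u (aeval y (F a)) := fun a => lt_of_le_of_ne (hy _) (Ne.symm (hcon a))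
  have hle : Ideal.span (Set.range F) ⊔ I ≤ EG_ideal u y hy ((1 : ℤ) : WithTop ℤ) := by
    refine sup_le ?_ ?_
    · rw [Ideal.span_le]
      rintro _ ⟨a, rfl⟩
      exact EG_pos_iff.mp (h1 a)
    · intro G hG
      show ((1 : ℤ) : WithTop ℤ) ≤ u (aeval y G)
      rw [hI G hG, u.map_zero]
      exact le_top
  have h2 : ((1 : ℤ) : WithTop ℤ) ≤ u (aeval y (X i ^ k)) := hle hk
  rw [map_pow, aeval_X, hi, one_pow, u.map_one] at h2
  exact absurd h2 (by exact_mod_cast (by norm_num : ¬ (1 : ℤ) ≤ 0))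

/-- Ramification. -/
private theorem EG_ram {q : ℕ} {y : Fin q → K} {I : Ideal (MvPolynomial (Fin q) ℂ)}
    (hy : ∀ G : MvPolynomial (Fin q) ℂ, 0 ≤ u (aeval y G)) (hI : ∀ G ∈ I, aeval y G = 0)
    {L : MvPolynomial (Fin q) ℂ} {i : Fin q} (hi : y i = 1) {k : ℕ}
    (hk : X i ^ k * L ∈ (Ideal.radical (Ideal.span {L} ⊔ I)) ^ 2 ⊔ I)
    (hL : 0 < u (aeval y L)) : ((2 : ℤ) : WithTop ℤ) ≤ u (aeval y L) := by
  have hI' : ∀ c, I ≤ EG_ideal u y hy c := by
    intro c G hG
    show c ≤ u (aeval y G)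
    rw [hI G hG, u.map_zero]
    exact le_top
  have h1 : Ideal.span {L} ⊔ I ≤ EG_ideal u y hy ((1 : ℤ) : WithTop ℤ) := by
    refine sup_le ?_ (hI' _)
    rw [Ideal.span_le, Set.singleton_subset_iff]
    exact EG_pos_iff.mp hL
  have h2 : Ideal.radical (Ideal.span {L} ⊔ I) ≤ EG_ideal u y hy ((1 : ℤ) : WithTop ℤ) := by
    intro G hG
    obtain ⟨t, ht⟩ := hG
    have h3 : ((1 : ℤ) : WithTop ℤ) ≤ u (aeval y (G ^ t)) := h1 ht
    show ((1 : ℤ) : WithTop ℤ) ≤ u (aeval y G)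
    by_contra h4
    rw [← EG_pos_iff, not_lt] at h4
    have h5 : u (aeval y G) = ((0 : ℤ) : WithTop ℤ) := le_antisymm h4 (hy G)
    rw [map_pow, EG_pow h5, mul_zero] at h3
    exact absurd h3 (by exact_mod_cast (by norm_num : ¬ (1 : ℤ) ≤ 0))
  have h3 : (Ideal.radical (Ideal.span {L} ⊔ I)) ^ 2 ⊔ I ≤
      EG_ideal u y hy ((2 : ℤ) : WithTop ℤ) := by
    refine sup_le ?_ (hI' _)
    rw [pow_two, Ideal.mul_le]
    intro G hG H hH
    show ((2 : ℤ) : WithTop ℤ) ≤ u (aeval y (G * H))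
    rw [map_mul]
    exact EG_mul_le (a := 1) (b := 1) (h2 hG) (h2 hH)
  have h4 : ((2 : ℤ) : WithTop ℤ) ≤ u (aeval y (X i ^ k * L)) := h3 hk
  rwa [map_mul, map_pow, aeval_X, hi, one_pow, one_mul] at h4

end

end

private lemma EG_num {n κ e k t J J' : ℕ} (he : 1 ≤ e) (ht : t < κ) (hk : k ≤ n + 1)
    (hJ : (2 * n + 8) * κ < J) (hJ' : J ≤ J' + t) :
    2 * (e * κ + e * (κ - t)) + 2 * (κ - t) * (k + 1) + 1 ≤ e * J' := by
  obtain ⟨s, rfl⟩ : ∃ s, κ = t + s := ⟨κ - t, by omega⟩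
  obtain ⟨e, rfl⟩ : ∃ e', e = e' + 1 := ⟨e - 1, by omega⟩
  have h2 : t + s - t = s := by omega
  rw [h2]
  have hs : 1 ≤ s := by omega
  have h4 : (2 * n + 8) * (t + s) + 1 ≤ J' + t := by omega
  zify at *
  nlinarith only [hJ', hJ, hk, mul_nonneg (Int.natCast_nonneg e) (Int.natCast_nonneg n),
    mul_nonneg (Int.natCast_nonneg n) (Int.natCast_nonneg t),
    mul_nonneg (Int.natCast_nonneg e) (Int.natCast_nonneg t),
    mul_nonneg (Int.natCast_nonneg e) (Int.natCast_nonneg s),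
    mul_nonneg (mul_nonneg (Int.natCast_nonneg e) (Int.natCast_nonneg n)) (Int.natCast_nonneg t),
    mul_nonneg (mul_nonneg (Int.natCast_nonneg e) (Int.natCast_nonneg n)) (Int.natCast_nonneg s)]

/-- The generic point, normalised at a coordinate. -/
theorem EG_point {Nn : ℕ} (P : Ideal (MvPolynomial (Fin (Nn + 1)) ℂ)) [P.IsPrime]
    {j₀ : Fin (Nn + 1)} (hj₀ : coordFun P j₀ ≠ 0) :
    (∀ i j, (ratio P i j : FunField P) = ratio P i j₀ / ratio P j j₀) ∧
      IntermediateField.adjoin ℂ (Set.range fun i => ratio P i j₀) = ⊤ ∧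
      ∀ (k : ℕ) (G : MvPolynomial (Fin (Nn + 1)) ℂ), G.IsHomogeneous k →
        (aeval (fun i => ratio P i j₀) G = 0 ↔ G ∈ P) := by
  classical
  have hmem : ∀ i, coordFun P i / coordFun P j₀ ∈ functionField P := fun i =>
    IntermediateField.subset_adjoin _ _ ⟨i, j₀, rfl⟩
  set x : Fin (Nn + 1) → functionField P := fun i => ⟨coordFun P i / coordFun P j₀, hmem i⟩ with hx
  have hratio : ∀ i j, ((x i / x j : functionField P) :
      FractionRing (MvPolynomial (Fin (Nn + 1)) ℂ ⧸ P)) = coordFun P i / coordFun P j := by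
    intro i j
    have h1 : ((x i / x j : functionField P) :
      FractionRing (MvPolynomial (Fin (Nn + 1)) ℂ ⧸ P)) =
        (coordFun P i / coordFun P j₀) / (coordFun P j / coordFun P j₀) := by
      rw [hx]
      rfl
    rw [h1, div_div_div_cancel_right₀ hj₀]
  have hgen : IntermediateField.adjoin ℂ {y | ∃ i j, y = x i / x j} = ⊤ := by
    rw [← IntermediateField.lift_inj, IntermediateField.lift_adjoin, IntermediateField.lift_top]
    conv_rhs => rw [functionField]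
    congr 1
    ext y
    constructor
    · rintro ⟨y', ⟨i, j, rfl⟩, rfl⟩
      exact ⟨i, j, hratio i j⟩
    · rintro ⟨i, j, rfl⟩
      exact ⟨x i / x j, ⟨i, j, rfl⟩, hratio i j⟩
  refine ⟨?_, ?_, ?_⟩
  · intro i j
    apply Subtype.ext
    exact (hratio i j).symm
  · change IntermediateField.adjoin ℂ (Set.range x) = ⊤
    rw [eq_top_iff, ← hgen, IntermediateField.adjoin_le_iff]
    rintro y ⟨i, j, rfl⟩
    exact div_mem (IntermediateField.subset_adjoin _ _ ⟨i, rfl⟩)
      (IntermediateField.subset_adjoin _ _ ⟨j, rfl⟩)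
  · intro n G hG
    change aeval x G = 0 ↔ G ∈ P
    have h1 : ((aeval x G : functionField P) : FractionRing (MvPolynomial (Fin (Nn + 1)) ℂ ⧸ P)) =
        aeval (fun i => (coordFun P j₀)⁻¹ * coordFun P i) G := by
      have h3 : ((functionField P).val (aeval x G)) =
          aeval (fun i => (functionField P).val (x i)) G := by
        rw [← MvPolynomial.comp_aeval]
        rfl
      change (functionField P).val (aeval x G) = _
      rw [h3]
      congr 2
      funext i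
      change coordFun P i / coordFun P j₀ = _
      rw [div_eq_inv_mul]
    rw [aeval_scale hG] at h1
    rw [← Pool.Agent.H92.GT.Proj.aeval_coordFun_eq_zero_iff]
    constructor
    · intro h0
      rw [h0] at h1
      exact (mul_eq_zero.1 h1.symm).resolve_left (pow_ne_zero _ (inv_ne_zero hj₀))
    · intro h0
      apply Subtype.ext
      rw [h1, h0, mul_zero]
      rfl

section

variable {K : Type} [Field K] [Algebra ℂ K]

/-- The change of coordinates. -/
private theorem EG_dot_mat {n : ℕ} {M : Matrix (Fin (n + 2)) (Fin (n + 2)) ℂ} (hM : IsUnit M.det)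
    (v₀ : Fin (n + 2) → K) (l : Fin (n + 2) → ℂ) :
    dot (toL K (fun e => ∑ f, l f * M f e)) (fun e => ∑ f, algebraMap ℂ K (M⁻¹ e f) * v₀ f) =
      ∑ f, algebraMap ℂ K (l f) * v₀ f := by
  have hM1 : M * M⁻¹ = 1 := Matrix.mul_nonsing_inv M hM
  unfold dot toL
  have h1 : ∀ e, algebraMap ℂ K (∑ f, l f * M f e) *
      ∑ g, algebraMap ℂ K (M⁻¹ e g) * v₀ g =
      ∑ f, ∑ g, algebraMap ℂ K (l f) * (algebraMap ℂ K (M f e * M⁻¹ e g) * v₀ g) := by
    intro e
    rw [map_sum, Finset.sum_mul]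
    refine Finset.sum_congr rfl fun f _ => ?_
    rw [Finset.mul_sum]
    refine Finset.sum_congr rfl fun g _ => ?_
    rw [map_mul, map_mul]
    ring
  rw [Finset.sum_congr rfl fun e _ => h1 e, Finset.sum_comm]
  refine Finset.sum_congr rfl fun f _ => ?_
  rw [Finset.sum_comm]
  have h2 : ∀ g, ∑ e, algebraMap ℂ K (l f) *
      (algebraMap ℂ K (M f e * M⁻¹ e g) * v₀ g) =
      algebraMap ℂ K (l f) * (algebraMap ℂ K ((M * M⁻¹) f g) * v₀ g) := by
    intro g
    rw [← Finset.mul_sum, ← Finset.sum_mul, ← map_sum, Matrix.mul_apply]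
  rw [Finset.sum_congr rfl fun g _ => h2 g, hM1]
  rw [Finset.sum_eq_single f]
  · rw [Matrix.one_apply_eq, map_one, one_mul]
  · intro g _ hg
    rw [Matrix.one_apply_ne hg.symm, map_zero, zero_mul, mul_zero]
  · intro hf
    exact absurd (Finset.mem_univ f) hf

private theorem EG_mat_inv {n : ℕ} {M : Matrix (Fin (n + 2)) (Fin (n + 2)) ℂ} (hM : IsUnit M.det)
    (v₀ : Fin (n + 2) → K) (a : Fin (n + 2)) :
    v₀ a = ∑ e, algebraMap ℂ K (M a e) * ∑ f, algebraMap ℂ K (M⁻¹ e f) * v₀ f := by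
  have h := EG_dot_mat hM v₀ (Pi.single a 1)
  unfold dot toL at h
  have h1 : ∀ e, ∑ f, (Pi.single a 1 : Fin (n + 2) → ℂ) f * M f e = M a e := by
    intro e
    rw [Finset.sum_eq_single a]
    · rw [Pi.single_eq_same, one_mul]
    · intro f _ hf
      rw [Pi.single_eq_of_ne hf, zero_mul]
    · intro hf
      exact absurd (Finset.mem_univ a) hf
  simp only [h1] at h
  rw [h, Finset.sum_eq_single a]
  · rw [Pi.single_eq_same, map_one, one_mul]
  · intro f _ hf
    rw [Pi.single_eq_of_ne hf, map_zero, zero_mul]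
  · intro hf
    exact absurd (Finset.mem_univ a) hf

end

/-- The theorem, in terms of a point over the function field. -/
theorem EG_core {K : Type} [Field K] [Algebra ℂ K] [Algebra.EssFiniteType ℂ K]
    {n Nn κ m e k : ℕ} {l : Fin m → Fin (n + 2) → ℂ}
    {M : Matrix (Fin (n + 2)) (Fin (n + 2)) ℂ} {N : Polynomial (PV n)} {φ : PVW n}
    {J : Finset (Fin m)} {c : Fin m → ℂ} (h : Pkg l M κ N φ J c)
    {F : Fin (n + 2) → MvPolynomial (Fin (Nn + 1)) ℂ}
    (P : Ideal (MvPolynomial (Fin (Nn + 1)) ℂ)) (hP : Homog P)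
    (hF : BaseFree P e F) (O : Finset (Fin m))
    (hram : ∀ j ∉ O, Ram P (comb (l j) F)) (hΔ : aeval F (DelM M κ N) ∉ P)
    {x : Fin (Nn + 1) → K} {j₀ : Fin (Nn + 1)} (hx1 : x j₀ = 1)
    (halg : Algebra.IsAlgebraic (IntermediateField.adjoin ℂ (Set.range x)) K)
    (hker : ∀ (k : ℕ) (G : MvPolynomial (Fin (Nn + 1)) ℂ), G.IsHomogeneous k →
      (aeval x G = 0 ↔ G ∈ P))
    (hprop : ¬ ∃ (y : Fin (n + 2) → ℂ) (f : K), ∀ a, aeval x (F a) = algebraMap ℂ K (y a) * f)
    (hk : k ≤ n + 1) {I : Fin (k + 1) → Fin (Nn + 1)}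
    (hz : IsTranscendenceBasis ℂ fun i => x (I i)) (Bd : PrimeDivisorOver K (k + 1) → Prop)
    (hBd : ∀ E, ¬ Bd E → ∀ j₁, x j₁ ≠ 0 → (∀ i, 0 ≤ E.ord ((x j₁)⁻¹ * x i)) → ∀ j ∈ O,
      ¬ 0 < E.ord (aeval (fun i => (x j₁)⁻¹ * x i) (comb (l j) F))) :
    IsLogGeneralType Bd := by
  classical
  -- the point of `ℂ^(n+2)` over the function field
  set v₀ : Fin (n + 2) → K := fun a => aeval x (F a) with hv₀
  set v : Fin (n + 2) → K := fun e => ∑ f, algebraMap ℂ _ (M⁻¹ e f) * v₀ f with hv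
  set lam : Fin m → Fin (n + 2) → ℂ := fun j e => ∑ f, l j f * M f e with hlamdef
  have hcomb : ∀ (y : Fin (Nn + 1) → K) j,
      aeval y (comb (l j) F) = ∑ f, algebraMap ℂ (K) (l j f) * aeval y (F f) := by
    intro y j
    unfold comb
    rw [map_sum]
    refine Finset.sum_congr rfl fun f _ => ?_
    rw [map_mul, aeval_C]
  have hlam : ∀ j, dot (toL (K) (lam j)) v = aeval x (comb (l j) F) := by
    intro j
    rw [hcomb]
    exact EG_dot_mat h.det v₀ (l j)
  have hΔ' : MvPolynomial.aeval v (Del κ N) ≠ 0 := by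
    intro h0
    apply hΔ
    obtain ⟨k, hk⟩ := DelM_isHomogeneous h
    rw [← hker (e * k) _ (hk.aeval _ hF.hom)]
    have h1 : aeval x (aeval F (DelM M κ N)) = aeval v₀ (DelM M κ N) := by
      rw [← AlgHom.comp_apply, MvPolynomial.comp_aeval]
    have h2 : aeval v₀ (DelM M κ N) = aeval v (Del κ N) := by
      unfold DelM
      rw [← AlgHom.comp_apply, MvPolynomial.comp_aeval]
      congr 2
      funext e
      rw [hv, map_sum]
      refine Finset.sum_congr rfl fun i _ => ?_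
      rw [map_mul, aeval_C, aeval_X]
    rw [h1, h2, h0]
  obtain ⟨B, hB⟩ := H23.exists_basis_kaehler hz
  -- the constant points
  have hD := h.data
  have hfin := finite_constants hD.norm v hΔ'
  set T : Finset (Fin (n + 2) → ℂ) := hfin.toFinset with hTdef
  have hT : ∀ τ, τ ∈ T ↔ τ ∈ Gam N ℂ ∧ dot (toL (K) τ) v = 0 := by
    intro τ
    rw [hTdef, Set.Finite.mem_toFinset]
    rfl
  have hTκ : T.card < κ := by
    refine card_constants_lt hD.pos hD.norm hD.nondeg v hΔ' ?_ T fun τ hτ => (hT τ).1 hτ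
    rintro ⟨y, f, hy⟩
    apply hprop
    refine ⟨fun a => ∑ e, M a e * y e, f, fun a => ?_⟩
    have h3 := EG_mat_inv h.det v₀ a
    have h4 : v₀ a = aeval x (F a) := rfl
    rw [← h4, h3, map_sum, Finset.sum_mul]
    refine Finset.sum_congr rfl fun e _ => ?_
    have h2 : ∑ f, algebraMap ℂ K (M⁻¹ e f) * v₀ f = v e := rfl
    rw [h2, hy e, map_mul]
    ring
  -- the marked points which are not constant
  have hJ := h.marked
  set J' : Finset (Fin m) := J.filter fun j => (fun a => c j * lam j a) ∉ T with hJ'def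
  have hJ'J : J' ⊆ J := Finset.filter_subset _ _
  have hJ'm : Marked N lam c J' := ⟨fun j hj => hJ.ne j (hJ'J hj), fun j hj => hJ.mem j (hJ'J hj),
    hJ.inj.mono (by exact_mod_cast hJ'J)⟩
  have hJ'c : J.card ≤ J'.card + T.card := by
    have h1 : (J.filter fun j => ¬ (fun a => c j * lam j a) ∉ T).card ≤ T.card := by
      rw [← Finset.card_image_of_injOn (f := fun j a => c j * lam j a)
        (hJ.inj.mono (by exact_mod_cast Finset.filter_subset _ _))]
      refine Finset.card_le_card fun w hw => ?_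
      obtain ⟨j, hj, rfl⟩ := Finset.mem_image.mp hw
      exact not_not.mp (Finset.mem_filter.mp hj).2
    have h2 := Finset.card_filter_add_card_filter_not (s := J)
      (fun j => (fun a => c j * lam j a) ∉ T)
    have h3 : J'.card = (J.filter fun j => (fun a => c j * lam j a) ∉ T).card := rfl
    omega
  have hJT : ∀ j ∈ J', (fun a => c j * lam j a) ∉ T := fun j hj => (Finset.mem_filter.mp hj).2
  have hxJ : ∀ j ∈ J', dot (toL (K) (lam j)) v ≠ 0 := by
    intro j hj h0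
    apply hJT j hj
    rw [hT]
    refine ⟨hJ'm.mem j hj, ?_⟩
    rw [EG_dot_toL_smul, h0, mul_zero]
  have hnum := EG_num hF.pos hTκ hk h.card hJ'c
  -- the function
  obtain ⟨μ, hμ⟩ := phi_ne_zero hD.pos hD.norm hD.chow (fun i => dualDer B i) (by
    intro f hf
    obtain ⟨z, hz'⟩ := exists_const_of_D_eq_zero (K := K) (f := f) (by
      rw [← B.sum_repr (KaehlerDifferential.D ℂ (K) f)]
      refine Finset.sum_eq_zero fun a _ => ?_
      rw [← dualDer_apply, hf a, zero_smul])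
    exact ⟨z, hz'.symm⟩) v hΔ' T hT
  set δ : Derivation ℂ (K) (K) :=
    ∑ i : Fin (k + 1), algebraMap ℂ (K) (μ i) • dualDer B i with hδ
  have hδapp : ∀ g, δ g = ∑ i : Fin (k + 1), algebraMap ℂ (K) (μ i) * dualDer B i g := by
    intro g
    rw [hδ, EG_der_sum]
    rfl
  have hΦ : evVW (Phi φ T.card) v (fun a => δ (v a)) ≠ 0 := by
    have h1 : (fun a => δ (v a)) = fun a => ∑ i, algebraMap ℂ (K) (μ i) *
        dualDer B i (v a) := funext fun a => hδapp _
    rw [h1]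
    exact hμ
  have hprodJ : (∏ j ∈ J', dot (toL (K) (lam j)) v)⁻¹ ≠ 0 :=
    inv_ne_zero (Finset.prod_ne_zero_iff.2 fun j hj => hxJ j hj)
  refine isLogGeneralType_of_function (K := K) hz (b := B) (M := 2 * (κ - T.card))
    (by omega) hx1 halg
    (Θ := evVW (Phi φ T.card) v (fun a => δ (v a)) ^ 2 *
      (∏ j ∈ J', dot (toL (K) (lam j)) v)⁻¹)
    (mul_ne_zero (pow_ne_zero _ hΦ) hprodJ) ?_
  intro E g₀ bE hg₀ hreg hlog hlog0 i
  -- the minimal order
  obtain ⟨j₁, -, hj₁⟩ := Finset.exists_min_image Finset.univ (fun j => E.ord (x j))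
    ⟨j₀, Finset.mem_univ _⟩
  have hj₁' : ∀ j, E.ord (x j₁) ≤ E.ord (x j) := fun j => hj₁ j (Finset.mem_univ _)
  have hle0 : E.ord (x j₁) ≤ 0 := by
    have := hj₁' j₀
    rwa [hx1, E.ord.map_one] at this
  have hxj1 : x j₁ ≠ 0 := by
    intro h0
    rw [h0, E.ord.map_zero] at hle0
    exact absurd hle0 (by simp)
  obtain ⟨r, hr⟩ : ∃ r : ℕ, E.ord (x j₁) = ((-(r : ℤ) : ℤ) : WithTop ℤ) := by
    obtain ⟨a, ha⟩ := EG_exists (u := E.ord) hxj1
    rw [ha] at hle0
    have h2 : a ≤ 0 := by exact_mod_cast hle0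
    refine ⟨(-a).toNat, ?_⟩
    rw [ha]
    congr 1
    omega
  set y : Fin (Nn + 1) → K := fun i => (x j₁)⁻¹ * x i with hy
  have hy1 : y j₁ = 1 := inv_mul_cancel₀ hxj1
  have hy0 : ∀ i, 0 ≤ E.ord (y i) := by
    intro j
    have h1 : E.ord (x j) = E.ord (y j) + E.ord (x j₁) := by
      rw [← E.ord.map_mul, hy]
      congr 1
      simp only
      rw [mul_comm (x j₁)⁻¹ (x j), mul_assoc, inv_mul_cancel₀ hxj1, mul_one]
    have h2 := hj₁' j
    rw [h1, hr] at h2
    induction hc : E.ord (y j) using WithTop.recTopCoe with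
    | top => exact le_top
    | coe a =>
      rw [hc] at h2
      have h3 : -(r : ℤ) ≤ a + -(r : ℤ) := by exact_mod_cast h2
      exact_mod_cast (by omega : (0 : ℤ) ≤ a)
  have hyG : ∀ G : MvPolynomial (Fin (Nn + 1)) ℂ, 0 ≤ E.ord (aeval y G) :=
    EG_nonneg E.ord_const hy0
  have hyP : ∀ G ∈ P, aeval y G = 0 := by
    intro G hG
    rw [← MvPolynomial.sum_homogeneousComponent G, map_sum]
    refine Finset.sum_eq_zero fun t _ => ?_
    have h1 := (hker t _ (homogeneousComponent_isHomogeneous t G)).mpr (hP G hG t)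
    rw [hy, EG_aeval_scale (homogeneousComponent_isHomogeneous t G), h1, mul_zero]
  have hyF : ∀ a, aeval y (F a) = ((x j₁)⁻¹) ^ e * v₀ a := fun a => by
    rw [hy, EG_aeval_scale (hF.hom a)]
  have hvy : ∀ a, ((x j₁)⁻¹) ^ e * v a = ∑ f, algebraMap ℂ (K) (M⁻¹ a f) *
      aeval y (F f) := by
    intro a
    rw [hv]
    simp only
    rw [Finset.mul_sum]
    refine Finset.sum_congr rfl fun f _ => ?_
    rw [hyF]
    ring
  have hv0 : ∀ a, 0 ≤ E.ord (((x j₁)⁻¹) ^ e * v a) := by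
    intro a
    rw [hvy]
    apply E.ord.map_le_sum
    intro f _
    rw [E.ord.map_mul]
    exact add_nonneg (E.ord_const _) (hyG _)
  have hv1 : ∃ a, E.ord (((x j₁)⁻¹) ^ e * v a) = 0 := by
    obtain ⟨t, ht⟩ := hF.base j₁
    obtain ⟨a₁, ha₁⟩ := EG_base hyG hyP hy1 ht
    by_contra hcon
    push Not at hcon
    have h1 : ∀ a, 0 < E.ord (((x j₁)⁻¹) ^ e * v a) := fun a =>
      lt_of_le_of_ne (hv0 a) (Ne.symm (hcon a))
    have h2 : 0 < E.ord (aeval y (F a₁)) := by
      rw [hyF, EG_mat_inv h.det v₀ a₁, Finset.mul_sum]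
      apply E.ord.map_lt_sum' (WithTop.coe_lt_top 0)
      intro a _
      have h3 : ((x j₁)⁻¹) ^ e * (algebraMap ℂ (K) (M a₁ a) *
          ∑ f, algebraMap ℂ (K) (M⁻¹ a f) * v₀ f) =
          (((x j₁)⁻¹) ^ e * v a) * algebraMap ℂ (K) (M a₁ a) := by
        rw [hv]
        ring
      rw [h3, E.ord.map_mul]
      exact E0_pos_add (h1 a) (E.ord_const _)
    rw [ha₁] at h2
    exact lt_irrefl _ h2
  have hLy : ∀ j, ((x j₁)⁻¹) ^ e * dot (toL (K) (lam j)) v =
      aeval y (comb (l j) F) := by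
    intro j
    rw [hlam, hy, EG_aeval_scale (comb_isHomogeneous (l j) hF.hom)]
  have hexo : ∀ j, ∃ o : ℕ, j ∈ J' →
      E.ord (((x j₁)⁻¹) ^ e * dot (toL (K) (lam j)) v) = ((o : ℤ) : WithTop ℤ) := by
    intro j
    by_cases hj : j ∈ J'
    · obtain ⟨a, ha⟩ := EG_exists (u := E.ord) (mul_ne_zero
        (pow_ne_zero e (inv_ne_zero hxj1)) (hxJ j hj))
      have h1 : 0 ≤ a := by
        have h2 := hyG (comb (l j) F)
        rw [← hLy, ha] at h2
        exact_mod_cast h2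
      refine ⟨a.toNat, fun _ => ?_⟩
      rw [ha]
      congr 1
      omega
    · exact ⟨0, fun h => absurd h hj⟩
  choose o ho using hexo
  have hr' : ∀ j, ((-(r : ℤ) : ℤ) : WithTop ℤ) ≤ E.ord (x j) := fun j => by
    rw [← hr]
    exact hj₁' j
  have hℓ : loss k r ≤ r * (k + 1) := by
    unfold loss
    split_ifs
    · positivity
    · exact le_rfl
  have hδ1 : ∀ f, 0 ≤ E.ord f → ((-(loss k r : ℤ) : ℤ) : WithTop ℤ) ≤
      E.ord ((bE.toMatrix B).det * δ f) := by
    intro f hf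
    rw [hδapp, Finset.mul_sum]
    apply E.ord.map_le_sum
    intro a _
    have h2 := (localDer_loss (v := E.ord) hg₀ hreg hlog hlog0 hB a (n := r)
      (fun j => hr' (I j))).1 f hf
    have h3 : (bE.toMatrix B).det * (algebraMap ℂ (K) (μ a) * dualDer B a f) =
        algebraMap ℂ (K) (μ a) * ((bE.toMatrix B).det * dualDer B a f) := by ring
    rw [h3, E.ord.map_mul]
    exact h2.trans (le_add_of_nonneg_left (E.ord_const _))
  have hδ2 : ∀ f (t : ℤ), ((t : ℤ) : WithTop ℤ) ≤ E.ord f →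
      ((t - 1 - (loss k r : ℤ) : ℤ) : WithTop ℤ) ≤ E.ord ((bE.toMatrix B).det * δ f) := by
    intro f t hf
    rw [hδapp, Finset.mul_sum]
    apply E.ord.map_le_sum
    intro a _
    have h2 := (localDer_loss (v := E.ord) hg₀ hreg hlog hlog0 hB a (n := r)
      (fun j => hr' (I j))).2 f t hf
    have h3 : (bE.toMatrix B).det * (algebraMap ℂ (K) (μ a) * dualDer B a f) =
        algebraMap ℂ (K) (μ a) * ((bE.toMatrix B).det * dualDer B a f) := by ring
    rw [h3, E.ord.map_mul]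
    exact h2.trans (le_add_of_nonneg_left (E.ord_const _))
  have hnum' : (2 : ℤ) * (κ * (e * r) + ((κ - T.card : ℕ) : ℤ) * (e * r)) +
      2 * ((κ - T.card : ℕ) : ℤ) * (r * (k + 1)) + r ≤ (J'.card : ℤ) * (e * r) := by
    have h1 : (2 : ℤ) * (e * κ + e * ((κ - T.card : ℕ) : ℤ)) +
        2 * ((κ - T.card : ℕ) : ℤ) * (k + 1) + 1 ≤ e * J'.card := by exact_mod_cast hnum
    have h2 := mul_le_mul_of_nonneg_right h1 (Nat.cast_nonneg (α := ℤ) r)
    nlinarith only [h2]
  have hℓ' : (((κ - T.card : ℕ) : ℤ)) * (loss k r : ℤ) ≤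
      ((κ - T.card : ℕ) : ℤ) * (r * (k + 1)) := by
    refine mul_le_mul_of_nonneg_left ?_ (Nat.cast_nonneg _)
    exact_mod_cast hℓ
  constructor
  · intro hE
    have ho2 : ∀ j ∈ J', o j ≤ 2 * (o j - 1) := by
      intro j hj
      have h1 := ho j hj
      rw [hLy] at h1
      by_cases hoj : o j = 0
      · rw [hoj]
      have hpos : 0 < E.ord (aeval y (comb (l j) F)) := by
        rw [h1]
        exact_mod_cast (by omega : (0 : ℤ) < o j)
      by_cases hjO : j ∈ O
      · exact absurd hpos (hBd E hE j₁ hxj1 hy0 j hjO)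
      · obtain ⟨t, ht⟩ := hram j hjO j₁
        have h2 := EG_ram hyG hyP hy1 ht hpos
        rw [h1] at h2
        have h3 : (2 : ℤ) ≤ o j := by exact_mod_cast h2
        omega
    have h1 := EG_est (u := E.ord) hD h.hom hJ'm hΔ' T (fun τ hτ => ((hT τ).1 hτ).1)
      (fun τ hτ => ((hT τ).1 hτ).2) hJT E.ord_const hr hv0 hv1 ho hg₀
      (det := (bE.toMatrix B).det) (δ := δ) (L := loss k r) (a := fun j => o j - 1)
      (fun j _ => Nat.sub_le _ _)
      (fun j hj => by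
        by_cases hoj : o j = 0
        · refine le_trans (le_of_eq ?_) (hδ1 _ (by rw [ho j hj]; exact_mod_cast Nat.zero_le _))
          rw [hoj]
          congr 1
          simp
        · refine le_trans (le_of_eq ?_) (hδ2 _ (o j) (ho j hj).ge)
          congr 1
          have : ((o j - 1 : ℕ) : ℤ) = (o j : ℤ) - 1 := by omega
          rw [this]
          ring)
      hδ1 (hr' i)
    refine le_trans ?_ h1
    have h2 : ∑ j ∈ J', (o j : ℤ) ≤ 2 * ∑ j ∈ J', ((o j - 1 : ℕ) : ℤ) := by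
      rw [Finset.mul_sum]
      refine Finset.sum_le_sum fun j hj => ?_
      exact_mod_cast ho2 j hj
    exact_mod_cast (by nlinarith only [h2, hnum', hℓ'] : (0 : ℤ) ≤
      2 * (-((κ : ℤ) * (e * r)) - ((κ - T.card : ℕ) : ℤ) * (e * r) -
        ((κ - T.card : ℕ) : ℤ) * (loss k r : ℕ) + ∑ j ∈ J', ((o j - 1 : ℕ) : ℤ)) +
        ((J'.card : ℤ) * (e * r) - ∑ j ∈ J', (o j : ℤ)) - r)
  · have h1 := EG_est (u := E.ord) hD h.hom hJ'm hΔ' T (fun τ hτ => ((hT τ).1 hτ).1)
      (fun τ hτ => ((hT τ).1 hτ).2) hJT E.ord_const hr hv0 hv1 ho hg₀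
      (det := (bE.toMatrix B).det) (δ := δ) (L := loss k r + 1) (a := o)
      (fun j _ => le_rfl)
      (fun j hj => by
        refine le_trans (le_of_eq ?_) (hδ2 _ (o j) (ho j hj).ge)
        congr 1
        push_cast
        ring)
      (fun f hf => by
        refine le_trans (le_of_eq ?_) (hδ2 f 0 hf)
        congr 1
        push_cast
        ring) (hr' i)
    have h3 := add_le_add h1 (le_refl ((((2 * (κ - T.card) : ℕ) : ℤ) : WithTop ℤ)))
    have h2 : (0 : ℤ) ≤ ∑ j ∈ J', (o j : ℤ) := Finset.sum_nonneg fun j _ => Int.natCast_nonneg _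
    rw [← WithTop.coe_add] at h3
    have h4 : (0 : ℤ) ≤ 2 * (-((κ : ℤ) * (e * r)) - ((κ - T.card : ℕ) : ℤ) * (e * r) -
        ((κ - T.card : ℕ) : ℤ) * ((loss k r + 1 : ℕ) : ℤ) + ∑ j ∈ J', (o j : ℤ)) +
        ((J'.card : ℤ) * (e * r) - ∑ j ∈ J', (o j : ℤ)) - r + ((2 * (κ - T.card) : ℕ) : ℤ) := by
      push_cast
      nlinarith only [h2, hnum', hℓ']
    have h5 : (0 : WithTop ℤ) ≤ (((2 * (-((κ : ℤ) * (e * r)) - ((κ - T.card : ℕ) : ℤ) * (e * r) -
        ((κ - T.card : ℕ) : ℤ) * ((loss k r + 1 : ℕ) : ℤ) + ∑ j ∈ J', (o j : ℤ)) +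
        ((J'.card : ℤ) * (e * r) - ∑ j ∈ J', (o j : ℤ)) - r + ((2 * (κ - T.card) : ℕ) : ℤ) : ℤ)) :
          WithTop ℤ) := WithTop.coe_le_coe.mpr h4
    exact h5.trans h3

end Pool.Agent.H5.DG
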