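import Pool.Agent.H94.DG.M01
import Pool.Agent.H94.DG.M20
import Pool.Agent.H94.DG.M21

/-!
# Project DG, B6: heights and distances, complex case

`heightA`: upper bound: `size_abs`, `mahler_le` (with `roots_nodup`), `bound_above`. Lower bound: `‖tpt N v u‖ ≥ max 1 ‖u‖` (coordinates
`0` and `1`, `tpt_facts`), `coeff_le_mahler`, `bound_below`.

`distA`: let `Θ` be as in `dirA n κ`. For `θ ∈ Θ` put `w_θ = θ - (dot p θ) e₀`, so `dot p w_θ = 0` (`p 0 = 1`) and `dot (tpt N v u) w_θ =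
dot (tpt N v u - p) θ`. `IsChow.dvd` gives `ψ_θ` with `φ (v, w_θ) = (dot p v) ψ_θ (v)`. By `chow_hom`, `φ (·, w_θ)` is homogeneous of degree
`κ`, so we may assume `ψ_θ` homogeneous of degree `κ - 1` (take the component of degree `κ - 1`), so `‖ψ_θ (v)‖ ≤ C ‖v‖ ^ (κ - 1)`.
With the `θ` of `dirA` for the vectors `tpt N v u - p`, `u ∈ rts N v`: `‖a (v)‖ ∏ ‖tpt N v u - p‖ ≤ ‖a (v)‖ ∏ C ‖dot (tpt N v u) w_θ‖ =
C ^ κ ‖φ (v, w_θ)‖` (`chow_prod`).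
-/

open MvPolynomial

noncomputable section

namespace Pool.Agent.H5.DG

variable {n κ : ℕ} {N : Polynomial (PV n)} {φ : PVW n}

private theorem HeightA_coeff (v : Fin (n + 2) → ℂ) (b : ℕ) :
    (atV N v).coeff b = MvPolynomial.aeval v (N.coeff b) := by
  unfold atV
  rw [Polynomial.coeff_map]
  rfl

private theorem HeightA_prod (hκ : 1 ≤ κ) (hN : IsPreNorm κ N) (v : Fin (n + 2) → ℂ)
    (hΔ : MvPolynomial.aeval v (Del κ N) ≠ 0) (f : ℂ → ℝ) :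
    ((atV N v).roots.map f).prod = ∏ u ∈ rts N v, f u := by
  classical
  have h : (rts N v).val = (atV N v).roots := by
    unfold rts
    rw [Multiset.toFinset_val]
    exact Multiset.dedup_eq_self.mpr (roots_nodup hκ hN v hΔ)
  unfold Finset.prod
  rw [h]

theorem heightA (hκ : 1 ≤ κ) (hN : IsPreNorm κ N) (hnd : Nondeg N) :
    ∃ c C : ℝ, 0 < c ∧ 0 < C ∧ ∀ v : Fin (n + 2) → ℂ, MvPolynomial.aeval v (Del κ N) ≠ 0 →
      c * ‖v‖ ^ κ ≤ ‖MvPolynomial.aeval v (N.coeff κ)‖ * ∏ u ∈ rts N v, ‖tpt N v u‖ ∧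
      ‖MvPolynomial.aeval v (N.coeff κ)‖ * ∏ u ∈ rts N v, ‖tpt N v u‖ ≤ C * ‖v‖ ^ κ := by
  obtain ⟨C1, hC1, hsize⟩ := size_abs hκ hN
  obtain ⟨c, hc, hbelow⟩ := bound_below hN hnd
  obtain ⟨C2, hC2, habove⟩ := bound_above hN
  refine ⟨c / 2 ^ κ, C1 ^ κ * ((κ + 1) * C2), by positivity, by positivity, ?_⟩
  intro v hΔ
  have hdeg := atV_natDegree hN v (coeff_ne_zero v hΔ)
  have hfac : ∀ u ∈ rts N v, max 1 ‖u‖ ≤ ‖tpt N v u‖ ∧ ‖tpt N v u‖ ≤ C1 * max 1 ‖u‖ := by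
    intro u hu
    have hf := tpt_facts hκ hN v hΔ ((mem_roots_iff hN v hΔ u).mp hu)
    constructor
    · refine max_le ?_ ?_
      · have := norm_le_pi_norm (tpt N v u) 0
        rwa [hf.2.1, norm_one] at this
      · have := norm_le_pi_norm (tpt N v u) 1
        rwa [hf.2.2.1] at this
    · have := hsize _ hf.1
      rwa [hf.2.2.1] at this
  constructor
  · obtain ⟨b, _, hb⟩ := hbelow v
    have h1 := coeff_le_mahler hdeg.1 b
    rw [HeightA_coeff, hdeg.2, HeightA_prod hκ hN v hΔ] at h1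
    have h2 : MvPolynomial.aeval v (N.coeff b) = MvPolynomial.eval v (N.coeff b) := by
      rw [MvPolynomial.aeval_eq_eval]
    rw [h2] at h1
    have h3 : ∏ u ∈ rts N v, max 1 ‖u‖ ≤ ∏ u ∈ rts N v, ‖tpt N v u‖ :=
      Finset.prod_le_prod (fun u _ => by positivity) fun u hu => (hfac u hu).1
    have h4 : ‖MvPolynomial.aeval v (N.coeff κ)‖ * ∏ u ∈ rts N v, max 1 ‖u‖ ≤
        ‖MvPolynomial.aeval v (N.coeff κ)‖ * ∏ u ∈ rts N v, ‖tpt N v u‖ :=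
      mul_le_mul_of_nonneg_left h3 (norm_nonneg _)
    have h5 := (hb.trans h1).trans (mul_le_mul_of_nonneg_left h4 (by positivity : (0 : ℝ) ≤ 2 ^ κ))
    rw [div_mul_eq_mul_div, div_le_iff₀ (by positivity)]
    linarith
  · have h1 := mahler_le hdeg.1 (H := C2 * ‖v‖ ^ κ) (fun b => by
      rw [HeightA_coeff]
      have h2 : MvPolynomial.aeval v (N.coeff b) = MvPolynomial.eval v (N.coeff b) := by
        rw [MvPolynomial.aeval_eq_eval]
      rw [h2]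
      exact habove v b)
    rw [hdeg.2, HeightA_prod hκ hN v hΔ] at h1
    have h3 : ∏ u ∈ rts N v, ‖tpt N v u‖ ≤ C1 ^ κ * ∏ u ∈ rts N v, max 1 ‖u‖ := by
      have h4 : ∏ u ∈ rts N v, ‖tpt N v u‖ ≤ ∏ u ∈ rts N v, (C1 * max 1 ‖u‖) :=
        Finset.prod_le_prod (fun u _ => norm_nonneg _) fun u hu => (hfac u hu).2
      rwa [Finset.prod_mul_distrib, Finset.prod_const, card_roots hκ hN v hΔ] at h4
    calc ‖MvPolynomial.aeval v (N.coeff κ)‖ * ∏ u ∈ rts N v, ‖tpt N v u‖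
        ≤ ‖MvPolynomial.aeval v (N.coeff κ)‖ * (C1 ^ κ * ∏ u ∈ rts N v, max 1 ‖u‖) :=
          mul_le_mul_of_nonneg_left h3 (norm_nonneg _)
      _ = C1 ^ κ * (‖MvPolynomial.aeval v (N.coeff κ)‖ * ∏ u ∈ rts N v, max 1 ‖u‖) := by ring
      _ ≤ C1 ^ κ * ((κ + 1) * (C2 * ‖v‖ ^ κ)) := mul_le_mul_of_nonneg_left h1 (by positivity)
      _ = _ := by ring

/-- The bound for one direction. -/
private theorem HeightA_dir (hκ : 1 ≤ κ) (hN : IsPreNorm κ N) (hΔ : Del κ N ≠ 0)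
    (hΔ' : ∃ d, (Del κ N).IsHomogeneous d) (hφ : IsChow κ N φ) (p : Fin (n + 2) → ℂ)
    (hp : p ∈ Gam N ℂ) (w : Fin (n + 2) → ℂ) (hw : dot p w = 0) :
    ∃ K : ℝ, 0 ≤ K ∧ ∀ v : Fin (n + 2) → ℂ, v ≠ 0 →
      ‖evVW φ v w‖ ≤ K * ‖dot p v‖ * ‖v‖ ^ (κ - 1) := by
  obtain ⟨ψ, hψ⟩ := hφ.dvd p hp w hw
  have hev : ∀ v : Fin (n + 2) → ℂ, evVW φ v w = dot p v * MvPolynomial.eval v ψ := by
    intro v
    have h1 := congrArg (MvPolynomial.aeval v : PV n →ₐ[ℂ] ℂ) hψ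
    rw [map_mul, MvPolynomial.comp_aeval_apply] at h1
    have h2 : (fun i => (MvPolynomial.aeval v : PV n →ₐ[ℂ] ℂ)
        ((Sum.elim MvPolynomial.X fun a => MvPolynomial.C (w a) :
          Fin (n + 2) ⊕ Fin (n + 2) → PV n) i)) = Sum.elim v w := by
      funext i
      rcases i with i | i
      · simp
      · simp
    rw [h2] at h1
    unfold evVW
    rw [h1]
    congr 1
    simp [dot]
  obtain ⟨K, hK⟩ := (isCompact_closedBall (0 : Fin (n + 2) → ℂ) 1).exists_bound_of_continuousOn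
    (f := fun v => MvPolynomial.eval v ψ) (MvPolynomial.continuous_eval ψ).continuousOn
  refine ⟨max K 0, le_max_right _ _, fun v hv => ?_⟩
  have hvn : 0 < ‖v‖ := norm_pos_iff.mpr hv
  have hvc : (‖v‖ : ℂ) ≠ 0 := by exact_mod_cast hvn.ne'
  set v' : Fin (n + 2) → ℂ := fun i => (‖v‖ : ℂ)⁻¹ * v i with hv'
  have hsc : v = fun i => (‖v‖ : ℂ) * v' i := by
    funext i
    rw [hv']
    simp only
    rw [← mul_assoc, mul_inv_cancel₀ hvc, one_mul]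
  have hnv' : ‖v'‖ ≤ 1 := by
    have h1 : v' = (‖v‖ : ℂ)⁻¹ • v := rfl
    rw [h1, norm_smul, norm_inv, Complex.norm_real, norm_norm, inv_mul_cancel₀ hvn.ne']
  have hhom := chow_hom hκ hN hΔ hΔ' hφ.eq v' w (‖v‖ : ℂ) 1 0
  have h3 : (fun i => (1 : ℂ) * w i + 0 * v' i) = w := by
    funext i; ring
  rw [h3, ← hsc, one_pow, mul_one] at hhom
  have hdot : dot p v' = (‖v‖ : ℂ)⁻¹ * dot p v := by
    unfold dot
    rw [Finset.mul_sum]
    refine Finset.sum_congr rfl fun i _ => ?_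
    rw [hv']
    ring
  rw [hhom, hev v', hdot, norm_mul, norm_mul, norm_mul, norm_pow, norm_inv, Complex.norm_real,
    norm_norm]
  have h4 : ‖MvPolynomial.eval v' ψ‖ ≤ max K 0 :=
    (hK v' (by simpa using hnv')).trans (le_max_left _ _)
  obtain ⟨k, rfl⟩ : ∃ k, κ = k + 1 := ⟨κ - 1, by omega⟩
  have h5 : ‖v‖ ^ (k + 1) * (‖v‖⁻¹ * ‖dot p v‖ * ‖MvPolynomial.eval v' ψ‖) =
      ‖v‖ ^ k * ‖dot p v‖ * ‖MvPolynomial.eval v' ψ‖ := by
    field_simp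
    ring
  rw [h5, Nat.add_sub_cancel]
  calc ‖v‖ ^ k * ‖dot p v‖ * ‖MvPolynomial.eval v' ψ‖ ≤ ‖v‖ ^ k * ‖dot p v‖ * max K 0 :=
        mul_le_mul_of_nonneg_left h4 (by positivity)
    _ = _ := by ring

theorem distA (hκ : 1 ≤ κ) (hN : IsPreNorm κ N) (hΔ : Del κ N ≠ 0)
    (hΔ' : ∃ d, (Del κ N).IsHomogeneous d) (hφ : IsChow κ N φ) (p : Fin (n + 2) → ℂ)
    (hp : p ∈ Gam N ℂ) :
    ∃ C : ℝ, 0 < C ∧ ∀ v : Fin (n + 2) → ℂ, MvPolynomial.aeval v (Del κ N) ≠ 0 →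
      ‖MvPolynomial.aeval v (N.coeff κ)‖ * ∏ u ∈ rts N v, ‖tpt N v u - p‖ ≤
        C * ‖dot p v‖ * ‖v‖ ^ (κ - 1) := by
  classical
  obtain ⟨Θ, C, hC, hΘ0, hdir⟩ := dirA n κ
  set W : (Fin (n + 2) → ℂ) → Fin (n + 2) → ℂ :=
    fun θ a => θ a - if a = 0 then dot p θ else 0 with hW
  have hWdot : ∀ (θ t : Fin (n + 2) → ℂ), t 0 = 1 → dot t (W θ) = dot θ (t - p) := by
    intro θ t ht
    have h1 : dot t (W θ) = dot t θ - dot p θ := by
      unfold dot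
      rw [hW]
      simp only [mul_sub, Finset.sum_sub_distrib, mul_ite, mul_zero]
      rw [Finset.sum_ite_eq' _ (0 : Fin (n + 2))]
      simp [ht, dot]
    rw [h1]
    unfold dot
    rw [← Finset.sum_sub_distrib]
    refine Finset.sum_congr rfl fun a _ => ?_
    simp only [Pi.sub_apply]
    ring
  have hWp : ∀ θ, dot p (W θ) = 0 := by
    intro θ
    rw [hWdot θ p hp.1, sub_self]
    simp [dot]
  choose K hK0 hK using fun θ => HeightA_dir hκ hN hΔ hΔ' hφ p hp (W θ) (hWp θ)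
  have hKsum : 0 ≤ ∑ θ ∈ Θ, K θ := Finset.sum_nonneg fun θ _ => hK0 θ
  refine ⟨C ^ κ * (1 + ∑ θ ∈ Θ, K θ), by positivity, ?_⟩
  intro v hv
  have hv0 : v ≠ 0 := by
    rintro rfl
    refine coeff_ne_zero (0 : Fin (n + 2) → ℂ) hv ?_
    rw [MvPolynomial.aeval_zero]
    have h1 : MvPolynomial.constantCoeff (N.coeff κ) = 0 := by
      have h2 := (hN.hom κ).coeff_eq_zero (d := 0) (by simpa using (by omega : (0 : ℕ) ≠ κ))
      simpa [MvPolynomial.constantCoeff_eq] using h2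
    rw [h1, map_zero]
  have hx0 : ∀ u ∈ rts N v, tpt N v u 0 = 1 := fun u hu =>
    (tpt_facts hκ hN v hv ((mem_roots_iff hN v hv u).mp hu)).2.1
  obtain ⟨θ, hθ, hθx⟩ := hdir (rts N v) (fun u => tpt N v u - p)
    (card_roots hκ hN v hv).le (fun u hu => by
      simp only [Pi.sub_apply]
      rw [hx0 u hu, hp.1, sub_self])
  have h1 : ∏ u ∈ rts N v, ‖tpt N v u - p‖ ≤ C ^ κ * ∏ u ∈ rts N v, ‖dot (tpt N v u) (W θ)‖ := by
    rw [← card_roots hκ hN v hv, ← Finset.prod_const, ← Finset.prod_mul_distrib]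
    refine Finset.prod_le_prod (fun u _ => norm_nonneg _) fun u hu => ?_
    rw [hWdot θ _ (hx0 u hu)]
    exact hθx u hu
  have h2 := chow_prod hκ hN hφ.eq v (W θ) hv
  have h3 : ‖evVW φ v (W θ)‖ = ‖MvPolynomial.aeval v (N.coeff κ)‖ *
      ∏ u ∈ rts N v, ‖dot (tpt N v u) (W θ)‖ := by
    rw [h2, norm_mul, norm_prod]
  have h4 := hK θ v hv0
  have h5 : K θ ≤ 1 + ∑ θ ∈ Θ, K θ := by
    have := Finset.single_le_sum (f := K) (fun θ _ => hK0 θ) hθ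
    linarith
  calc ‖MvPolynomial.aeval v (N.coeff κ)‖ * ∏ u ∈ rts N v, ‖tpt N v u - p‖
      ≤ ‖MvPolynomial.aeval v (N.coeff κ)‖ *
        (C ^ κ * ∏ u ∈ rts N v, ‖dot (tpt N v u) (W θ)‖) :=
        mul_le_mul_of_nonneg_left h1 (norm_nonneg _)
    _ = C ^ κ * ‖evVW φ v (W θ)‖ := by rw [h3]; ring
    _ ≤ C ^ κ * (K θ * ‖dot p v‖ * ‖v‖ ^ (κ - 1)) := mul_le_mul_of_nonneg_left h4 (by positivity)
    _ ≤ C ^ κ * ((1 + ∑ θ ∈ Θ, K θ) * ‖dot p v‖ * ‖v‖ ^ (κ - 1)) := by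
        refine mul_le_mul_of_nonneg_left ?_ (by positivity)
        refine mul_le_mul_of_nonneg_right ?_ (by positivity)
        exact mul_le_mul_of_nonneg_right h5 (norm_nonneg _)
    _ = _ := by ring

end Pool.Agent.H5.DG
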