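import Pool.Agent.H94.DG.M07
import Pool.Agent.H94.DG.M08

/-!
# Project DG, module Lang: the special set
-/

open MvPolynomial Filter Topology
open Pool.Agent.H17 (PN VanishesAt zeroLocus ZariskiClosedIn HolomorphicInto puncturedDisc)
open Pool.Agent.H66.Lang (line line_zero line_one analyticAt_line)
open Pool.Agent.H92.GGL (dense_lines const_of_dense)
open Pool.Agent.H17LG.Variety (FunField)
open Pool.Agent.H62.FC (SemiAbelianMap unionImages specialSet closureIn IsGeneralType)

noncomputable section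

namespace Pool.Agent.H5.DG

variable {N : ℕ}

/-- Maps from semi-abelian varieties, if the non-constant entire curves lie in `Ξ`. -/
theorem unionImages_subset {X Ξ : Set (PN N)}
    (h : ∀ f : ℂ → PN N, HolomorphicInto f Set.univ → (∀ z, f z ∈ X) → (∃ z, f z ∉ Ξ) →
      ∀ z w, f z = f w) : unionImages X ⊆ Ξ := by
  rintro _ ⟨S, hSX, ⟨y₁, ⟨p₁, hp₁, rfl⟩, y₂, ⟨p₂, hp₂, rfl⟩, hne⟩, ⟨p, hp, rfl⟩⟩
  by_contra hcon
  have hgood : ∀ q ∈ {q : Fin S.g → ℂ | ∀ s : ℂ, line p q s ∉ S.Z}, S.f q = S.f p := by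
    intro q hq
    have h1 := h (fun s => S.f (line p q s)) (by
      intro s _
      obtain ⟨φ, hφ, hev⟩ := S.holomorphic (line p q s) (hq s)
      exact ⟨fun s => φ (line p q s), hφ.comp (analyticAt_line p q s),
        (analyticAt_line p q s).continuousAt.eventually hev⟩)
      (fun s => hSX ⟨_, hq s, rfl⟩) ⟨0, by
        rw [line_zero]
        exact hcon⟩ 1 0
    beta_reduce at h1
    rwa [line_one, line_zero] at h1
  have hdense := dense_lines (Z := S.Z) S.codim hp
  have h2 := fun q (hq : q ∉ S.Z) => const_of_dense S.holomorphic hdense hgood hq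
  exact hne ((h2 p₁ hp₁).trans (h2 p₂ hp₂).symm)

/-- The projective variety given by the homogeneous ideal `I`. -/
def variety (I : Ideal (MvPolynomial (Fin (N + 1)) ℂ)) : Set (PN N) :=
  {x | ∀ Q ∈ I, ∀ k, Q.IsHomogeneous k → VanishesAt Q x}

/-- The union of the non-constant entire curves in `X`. -/
def entireCurves (X : Set (PN N)) : Set (PN N) :=
  {x | ∃ f : ℂ → PN N, HolomorphicInto f Set.univ ∧ (∀ z, f z ∈ X) ∧ (∃ z w, f z ≠ f w) ∧
    ∃ z, x = f z}

/-- The union of the closed irreducible subvarieties of positive dimension, not of general type, of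
the variety given by `I`. -/
def unionNotGeneralType (I : Ideal (MvPolynomial (Fin (N + 1)) ℂ)) : Set (PN N) :=
  {x | ∃ (P : Ideal (MvPolynomial (Fin (N + 1)) ℂ)) (_ : P.IsPrime) (w : ℕ), Homog P ∧ I ≤ P ∧
    1 ≤ w ∧ (∃ z : Fin w → FunField P, IsTranscendenceBasis ℂ z) ∧
    ¬ IsGeneralType (FunField P) w ∧ x ∈ variety P}

theorem isGeneralType_of {m w : ℕ} {P : Ideal (MvPolynomial (Fin (N + 1)) ℂ)} [P.IsPrime]
    {H : Fin m → MvPolynomial (Fin (N + 1)) ℂ} (h : LogGeneralType P ∅ H w) :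
    IsGeneralType (FunField P) w := by
  obtain ⟨m, hm, ω, hω, r, f, hf, h1, h2⟩ := h
  exact ⟨m, hm, ω, hω, r, f, hf, fun i E => (h1 i E).1 (by
    rintro ⟨j, -, -, i, hi, -⟩
    exact absurd hi (Finset.notMem_empty i)), h2⟩

/-- **Lang's conjecture for `X`**: `X` is of general type and the special set, the entire curves and
the subvarieties not of general type lie in a proper closed subset. -/
structure LangProperties (I : Ideal (MvPolynomial (Fin (N + 1)) ℂ)) [I.IsPrime] (r : ℕ)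
    (Ξ : Set (PN N)) : Prop where
  generalType : IsGeneralType (FunField I) r
  closed : ZariskiClosedIn (variety I) Ξ
  proper : Ξ ≠ variety I
  special : specialSet (variety I) ⊆ Ξ
  curves : closureIn (variety I) (entireCurves (variety I)) ⊆ Ξ
  subvarieties : closureIn (variety I) (unionNotGeneralType I) ⊆ Ξ

theorem coverLocus_eq {m : ℕ} (I : Ideal (MvPolynomial (Fin (N + 1)) ℂ))
    (H : Fin m → MvPolynomial (Fin (N + 1)) ℂ) : coverLocus I ∅ H = variety I := by
  ext x
  exact ⟨fun h => h.1, fun h => ⟨h, fun i hi => absurd hi (Finset.notMem_empty i)⟩⟩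

theorem CoverPart.lang {m r e k : ℕ} {l : Fin m → Fin (r + 1) → ℂ}
    {Δ : MvPolynomial (Fin (r + 1)) ℂ} {I : Ideal (MvPolynomial (Fin (N + 1)) ℂ)} [I.IsPrime]
    {F : Fin (r + 1) → MvPolynomial (Fin (N + 1)) ℂ} (h : CoverPart l Δ I F ∅) (hI : Homog I)
    (hF : BaseFree I e F) (hk : Δ.IsHomogeneous k) (hΔI : aeval F Δ ∉ I) {w : ℕ} (hw : 1 ≤ w)
    (hz : ∃ z : Fin w → FunField I, IsTranscendenceBasis ℂ z) :
    LangProperties I w {x | x ∈ variety I ∧ VanishesAt (aeval F Δ) x} := by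
  have hnil : ∀ j ∈ (∅ : Finset (Fin m)), comb (l j) F ∉ I := fun j hj =>
    absurd hj (Finset.notMem_empty j)
  have hΞ : {x | x ∈ variety I ∧ VanishesAt (aeval F Δ) x} = excLocus l Δ I F ∅ := by
    unfold excLocus
    rw [coverLocus_eq]
  have hcl : ∀ S : Set (PN N), (∀ x ∈ S, VanishesAt (aeval F Δ) x) →
      closureIn (variety I) S ⊆ {x | x ∈ variety I ∧ VanishesAt (aeval F Δ) x} := by
    intro S hS x hx
    exact ⟨hx.1, hx.2 (e * k) _ (hk.aeval _ hF.hom) hS⟩
  have hbrody : ∀ f : ℂ → PN N, HolomorphicInto f Set.univ → (∀ z, f z ∈ variety I) →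
      (∃ z, f z ∉ {x | x ∈ variety I ∧ VanishesAt (aeval F Δ) x}) → ∀ z w, f z = f w := by
    rintro f hf hfX ⟨z, hz⟩
    refine h.brody f hf (by rw [coverLocus_eq]; exact hfX) ⟨z, fun hcon => hz ⟨hfX z, hcon⟩⟩
  refine ⟨isGeneralType_of (h.four hI hF hk hΔI hnil hw hz).logGeneralType, ?_, ?_, ?_, ?_, ?_⟩
  · rw [hΞ, ← coverLocus_eq I fun j => comb (l j) F]
    exact excLocus_closed hF hk
  · rw [hΞ, ← coverLocus_eq I fun j => comb (l j) F]
    exact excLocus_ne hF hk hΔI hnil hw hz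
  · exact hcl _ fun x hx => (unionImages_subset hbrody hx).2
  · refine hcl _ ?_
    rintro _ ⟨f, hf, hfX, ⟨z, w, hzw⟩, y, rfl⟩
    by_contra hcon
    exact hzw (hbrody f hf hfX ⟨y, fun h => hcon h.2⟩ z w)
  · refine hcl _ ?_
    rintro x ⟨P, _, w, hP, hIP, hw, hz', hng, hx⟩
    by_contra hcon
    refine hng (isGeneralType_of (h.strongly P hP hIP (fun j hj =>
      absurd hj (Finset.notMem_empty j)) (fun hmem => hcon ?_) w hw hz'))
    exact hx _ hmem (e * k) (hk.aeval _ hF.hom)

/-- Lang's conjecture for the finite covers of closed subvarieties of `ℙ^r` which vanish on the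
inverse images of the hyperplanes `l j` with multiplicities at least `q` and are not contained in
the exceptional set, in particular for those of dimension `r`. -/
def LangTheorem (q : ℕ) {m r : ℕ} (l : Fin m → Fin (r + 1) → ℂ)
    (Δ : MvPolynomial (Fin (r + 1)) ℂ) : Prop :=
  ∀ (N e : ℕ) (I : Ideal (MvPolynomial (Fin (N + 1)) ℂ)) [I.IsPrime]
    (F : Fin (r + 1) → MvPolynomial (Fin (N + 1)) ℂ), Homog I → BaseFree I e F →
    (∀ j, RamM q I (comb (l j) F)) → ∀ w, 1 ≤ w →
    (∃ z : Fin w → FunField I, IsTranscendenceBasis ℂ z) → (w = r → aeval F Δ ∉ I) ∧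
      (aeval F Δ ∉ I → LangProperties I w {x | x ∈ variety I ∧ VanishesAt (aeval F Δ) x})

theorem HyperplaneTheorem.lang {q m r k : ℕ} {l : Fin m → Fin (r + 1) → ℂ}
    {Δ : MvPolynomial (Fin (r + 1)) ℂ} (h : HyperplaneTheorem q l Δ) (hk : Δ.IsHomogeneous k) :
    LangTheorem q l Δ := by
  intro N e I _ F hI hF hram w hw hz
  have h1 := h.covers N e I F ∅ hI hF (fun j hj => absurd hj (Finset.notMem_empty j))
    fun j _ => hram j
  exact ⟨(h1.2 w hw hz).1, fun hΔI => h1.1.lang hI hF hk hΔI hw hz⟩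

end Pool.Agent.H5.DG
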