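import Pool.Agent.H94.DG.H5.DG.ChowDvd
import Pool.Agent.H94.DG.M22
import Pool.Agent.H94.DG.M26
import Pool.Agent.H94.DG.M36

/-!
# Project DG: assembly of Parts A and B

`partA n (max ρ (n + 2))`, `N₀` replaced by `max N₀ (n + 2)`; `GenPos l` and `n + 2 ≤ m` imply `l j ≠ 0`. The points `p j = c j Mᵀ l j`, `j ∈ J`,
span: `J.card > n + 2`; if `dot (p j) w = 0` for all `j ∈ J`, then `dot (l j) (M w) = 0` for `n + 2` different `j`, so `M w = 0` (`GenPos`), `w = 0`.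
`nondeg_of_span`, `del_ne_zero`, `del_homogeneous`, `exists_chow_eq`, `chow_dvd`, `hN.pre`.
-/

open MvPolynomial

noncomputable section

namespace Pool.Agent.H5.DG

/-- **Parts A and B.** Many of the points `l j` lie, after a linear change of coordinates and
scaling, on a curve of small degree. -/
theorem package (n ρ : ℕ) : ∃ N₀ : ℕ, n + 2 ≤ N₀ ∧ ∀ (m : ℕ) (l : Fin m → Fin (n + 2) → ℂ),
    N₀ ≤ m → GenPos l →
    ∃ (M : Matrix (Fin (n + 2)) (Fin (n + 2)) ℂ) (κ : ℕ) (N : Polynomial (PV n)) (φ : PVW n)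
      (J : Finset (Fin m)) (c : Fin m → ℂ),
      IsUnit M.det ∧ 1 ≤ κ ∧ IsNormForm κ N ∧ Nondeg N ∧ IsChow κ N φ ∧ Del κ N ≠ 0 ∧
      (∃ d, (Del κ N).IsHomogeneous d) ∧ ρ * κ < J.card ∧
      ∀ j ∈ J, c j ≠ 0 ∧ (fun a => c j * ∑ b, l j b * M b a) ∈ Gam N ℂ := by
  obtain ⟨N₀, h⟩ := partA n (max ρ (n + 2))
  refine ⟨max N₀ (n + 2), le_max_right _ _, fun m l hm hl => ?_⟩
  have hm2 : n + 2 ≤ m := (le_max_right _ _).trans hm
  have hne : ∀ j, l j ≠ 0 := by
    intro j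
    have h1 := hl (Equiv.swap (Fin.castLEEmb hm2 0) j ∘ Fin.castLEEmb hm2)
      ((Equiv.swap (Fin.castLEEmb hm2 0) j).injective.comp (Fin.castLEEmb hm2).injective)
    have h2 := h1.ne_zero 0
    rw [Function.comp_apply, Equiv.swap_apply_left] at h2
    exact h2
  obtain ⟨M, κ, N, J, c, hM, hκ, hN, hJ, hc⟩ := h m l ((le_max_left _ _).trans hm) hne
  have hJ1 : ρ * κ < J.card := lt_of_le_of_lt (Nat.mul_le_mul_right κ (le_max_left _ _)) hJ
  have hJ2 : n + 2 ≤ J.card := by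
    have h1 : (n + 2) * κ < J.card :=
      lt_of_le_of_lt (Nat.mul_le_mul_right κ (le_max_right _ _)) hJ
    have h2 : n + 2 ≤ (n + 2) * κ := Nat.le_mul_of_pos_right _ hκ
    omega
  have hspan : ∀ w : Fin (n + 2) → ℂ,
      (∀ j ∈ J, dot (fun a => c j * ∑ b, l j b * M b a) w = 0) → w = 0 := by
    intro w hw
    have h1 : ∀ j ∈ J, ∑ b, l j b * (M.mulVec w) b = 0 := by
      intro j hj
      have h2 : dot (fun a => c j * ∑ b, l j b * M b a) w =
          c j * ∑ b, l j b * (M.mulVec w) b := by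
        unfold dot
        simp only [Matrix.mulVec, dotProduct, Finset.mul_sum, Finset.sum_mul]
        rw [Finset.sum_comm]
        refine Finset.sum_congr rfl fun b _ => Finset.sum_congr rfl fun a _ => ?_
        ring
      have h3 := hw j hj
      rw [h2] at h3
      exact (mul_eq_zero.1 h3).resolve_left (hc j hj).1
    have hA := hl (J.orderEmbOfCardLe hJ2) (J.orderEmbOfCardLe hJ2).injective
    have hA2 : IsUnit (Matrix.of fun i => l (J.orderEmbOfCardLe hJ2 i)) :=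
      Matrix.linearIndependent_rows_iff_isUnit.1 hA
    have hA3 : (Matrix.of fun i => l (J.orderEmbOfCardLe hJ2 i)).det ≠ 0 :=
      ((Matrix.isUnit_iff_isUnit_det _).1 hA2).ne_zero
    have h4 : M.mulVec w = 0 := by
      refine Matrix.eq_zero_of_mulVec_eq_zero hA3 ?_
      funext i
      exact h1 _ (J.orderEmbOfCardLe_mem hJ2 i)
    exact Matrix.eq_zero_of_mulVec_eq_zero hM.ne_zero h4
  have hp : ∀ j ∈ J, (fun a => c j * ∑ b, l j b * M b a) ∈ Gam N ℂ := fun j hj => (hc j hj).2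
  have hΔ := del_ne_zero hκ hN
  obtain ⟨φ, hφ⟩ := exists_chow_eq hκ hN.pre hΔ
  exact ⟨M, κ, N, φ, J, c, hM, hκ, hN, nondeg_of_span hκ hN J _ hp hspan,
    ⟨hφ, fun p hp w hw => chow_dvd hκ hN.pre hΔ hφ p hp w hw⟩, hΔ, del_homogeneous hN.pre, hJ1,
    hc⟩

end Pool.Agent.H5.DG
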