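import Pool.Agent.H94.DG.H5.DG.Lang

/-!
# Project DG2, module SecDefs: hypersurface sections of projective varieties

`Y ⊆ ℙ^M` is the closed subvariety given by the homogeneous prime ideal `P`; the forms `G j` define
hypersurface sections of `Y`.
-/

open MvPolynomial Filter Topology
open Pool.Agent.H17 (PN VanishesAt zeroLocus ZariskiClosedIn HolomorphicInto puncturedDisc)
open Pool.Agent.H17LG.Variety (FunField)

noncomputable section

namespace Pool.Agent.H5.DG

variable {Nn m : ℕ}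

/-- The map `f`, holomorphic on `U`, meets the hypersurface `G = 0` with multiplicities at least `q`
at all points of `U` (multiplicity `⊤` is allowed). -/
def MeetsForm (q : ℕ) {r : ℕ} (G : MvPolynomial (Fin (r + 1)) ℂ) (f : ℂ → PN r) (U : Set ℂ) :
    Prop :=
  ∀ s ∈ U, ∃ φ : ℂ → Fin (r + 1) → ℂ, AnalyticAt ℂ φ s ∧
    (∀ᶠ z in 𝓝 s, ∃ h : φ z ≠ 0, f z = Projectivization.mk ℂ (φ z) h) ∧
    (eval (φ s) G = 0 → (q : ℕ∞) ≤ analyticOrderAt (fun z => eval (φ z) G) s)

/-- Maps from the punctured disc and from `ℂ` to the variety `Y` given by `P` which meet all the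
hypersurfaces `G j = 0` with multiplicities at least `q`, with the exceptional form `Δ`. -/
structure OrbifoldSection (q : ℕ) {M : ℕ} (P : Ideal (MvPolynomial (Fin (M + 1)) ℂ))
    (G : Fin m → MvPolynomial (Fin (M + 1)) ℂ) (Δ : MvPolynomial (Fin (M + 1)) ℂ) : Prop where
  picard : ∀ f : ℂ → PN M, HolomorphicInto f puncturedDisc →
    (∀ z ∈ puncturedDisc, f z ∈ variety P) → (∀ j, MeetsForm q (G j) f puncturedDisc) →
    (∃ z ∈ puncturedDisc, ¬ VanishesAt Δ (f z)) →
    ∃ g : ℂ → PN M, HolomorphicInto g (Metric.ball 0 1) ∧ ∀ z ∈ puncturedDisc, g z = f z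
  brody : ∀ f : ℂ → PN M, HolomorphicInto f Set.univ → (∀ z, f z ∈ variety P) →
    (∀ j, MeetsForm q (G j) f Set.univ) → (∃ z, ¬ VanishesAt Δ (f z)) → ∀ z w, f z = f w

end Pool.Agent.H5.DG
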